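import Pool.Agent.H490R3.RZ.Thin
import Pool.Agent.H490R3.RZ.Rad
import Pool.Agent.H490R3.RZ.T_basic
import Pool.Agent.H490R3.RZ.T_final
import Pool.Agent.H490R3.RZ.T_exh
import Pool.Agent.H490R3.RZ.T_scd
import Pool.Agent.H490R3.RZ.T_drain
import Pool.Agent.H490R3.RZ.T_polar
import Pool.Agent.Helper557.Rz.M_hb
import Pool.Agent.Helper557.Rz.M_movgap

/-!
# Finitely additive measures on `ℝ^d` invariant under few isometries

The arguments of `H490R3.RZ.Rad`, `T_basic`, `T_final` for finitely additive measures which are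
invariant only under a finite family of rotations about the origin with a flow and under the
translations by a dense subgroup.
-/

set_option autoImplicit false

open MeasureTheory Set
open Pool.Agent.Helper557.Rz
open Pool.Agent.H490R3.RZ hiding thin thin_mu radial ac fin_cadd t_final t_basic

namespace Pool.Agent.Y779.RZ.Eu

/-- `μ` is, on the Borel sets of `E d`, a finitely additive measure with values in `[0, ∞]`,
invariant under the family `g` of linear isometries and under the translations by the vectors of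
`D`, with value `1` on the unit cube -/
structure IsInvF (d k : ℕ) (g : Fin k → Iso d) (D : AddSubgroup (E d))
    (μ : Set (E d) → ENNReal) : Prop where
  empty : μ ∅ = 0
  add : ∀ A B : Set (E d), MeasurableSet A → MeasurableSet B → Disjoint A B →
    μ (A ∪ B) = μ A + μ B
  rot : ∀ (i : Fin k) (A : Set (E d)), MeasurableSet A → μ (g i ⁻¹' A) = μ A
  tr : ∀ v ∈ D, ∀ A : Set (E d), MeasurableSet A → μ ((fun x => x + v) ⁻¹' A) = μ A
  cube : μ {x : E d | ∀ i, 0 ≤ x i ∧ x i ≤ 1} = 1

namespace IsInvF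

variable {d k : ℕ} {g : Fin k → Iso d} {D : AddSubgroup (E d)} {μ : Set (E d) → ENNReal}

theorem mono (h : IsInvF d k g D μ) {A B : Set (E d)} (hA : MeasurableSet A)
    (hB : MeasurableSet B) (hAB : A ⊆ B) : μ A ≤ μ B := by
  have h1 := h.add A (B \ A) hA (hB.diff hA) disjoint_sdiff_right
  rw [union_sdiff_cancel hAB] at h1
  rw [h1]
  exact le_self_add

theorem union_le (h : IsInvF d k g D μ) {A B : Set (E d)} (hA : MeasurableSet A)
    (hB : MeasurableSet B) : μ (A ∪ B) ≤ μ A + μ B := by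
  have h1 := h.add A (B \ A) hA (hB.diff hA) disjoint_sdiff_right
  rw [union_sdiff_self] at h1
  rw [h1]
  exact add_le_add_right (h.mono (hB.diff hA) hB sdiff_subset) _

theorem biUnion_le (h : IsInvF d k g D μ) {ι : Type} (s : Finset ι) (A : ι → Set (E d))
    (hA : ∀ i, MeasurableSet (A i)) : μ (⋃ i ∈ s, A i) ≤ ∑ i ∈ s, μ (A i) := by
  classical
  induction s using Finset.induction_on with
  | empty => simp [h.empty]
  | insert a s ha ih =>
    rw [Finset.set_biUnion_insert, Finset.sum_insert ha]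
    refine (h.union_le (hA a) (s.measurableSet_biUnion fun i _ => hA i)).trans ?_
    exact add_le_add_right ih _

theorem biUnion_eq (h : IsInvF d k g D μ) (A : ℕ → Set (E d)) (hA : ∀ i, MeasurableSet (A i))
    (hd : ∀ i j, i ≠ j → Disjoint (A i) (A j)) (N : ℕ) :
    μ (⋃ i ∈ Finset.range N, A i) = ∑ i ∈ Finset.range N, μ (A i) := by
  induction N with
  | zero => simp [h.empty]
  | succ N ih =>
    have hN : N ∉ Finset.range N := by simp
    rw [Finset.range_add_one, Finset.set_biUnion_insert, Finset.sum_insert hN,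
      h.add _ _ (hA N) ((Finset.range N).measurableSet_biUnion fun i _ => hA i) ?_, ih]
    rw [Set.disjoint_iUnion₂_right]
    intro i hi
    exact hd N i (by rintro rfl; exact hN hi)

theorem closedBall_le (h : IsInvF d k g D μ) (hD : Dense (D : Set (E d))) (p q : E d) {r : ℝ}
    (hr : 0 < r) : μ (Metric.closedBall p r) ≤ μ (Metric.closedBall q (2 * r)) := by
  obtain ⟨v, hv, hvD⟩ := Metric.mem_closure_iff.1 (hD (q - p)) r hr
  rw [← h.tr v hv (Metric.closedBall q (2 * r)) Metric.isClosed_closedBall.measurableSet]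
  refine h.mono Metric.isClosed_closedBall.measurableSet
    ((measurable_add_const v) Metric.isClosed_closedBall.measurableSet) fun x hx => ?_
  show x + v ∈ Metric.closedBall q (2 * r)
  rw [Metric.mem_closedBall, dist_eq_norm] at hx ⊢
  rw [dist_eq_norm] at hvD
  calc ‖x + v - q‖ = ‖(x - p) - (q - p - v)‖ := by congr 1; abel
    _ ≤ ‖x - p‖ + ‖q - p - v‖ := norm_sub_le _ _
    _ ≤ 2 * r := by linarith

theorem closedBall_le_one (h : IsInvF d k g D μ) (hD : Dense (D : Set (E d))) (p : E d) :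
    μ (Metric.closedBall p (1 / 4)) ≤ 1 := by
  set c : E d := WithLp.toLp 2 (fun _ => (1 / 2 : ℝ)) with hc
  refine (h.closedBall_le hD p c (by norm_num)).trans ?_
  rw [← h.cube]
  have hcl : IsClosed {x : E d | ∀ i, 0 ≤ x i ∧ x i ≤ 1} := by
    have : {x : E d | ∀ i, 0 ≤ x i ∧ x i ≤ 1} = ⋂ i, {x : E d | 0 ≤ x i ∧ x i ≤ 1} := by
      ext x; simp
    rw [this]
    refine isClosed_iInter fun i => ?_
    have hci : Continuous fun x : E d => x i := by fun_prop
    exact (isClosed_le continuous_const hci).inter (isClosed_le hci continuous_const)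
  refine h.mono Metric.isClosed_closedBall.measurableSet hcl.measurableSet fun x hx i => ?_
  rw [Metric.mem_closedBall, dist_eq_norm] at hx
  have h1 : |x i - 1 / 2| ≤ 1 / 2 := by
    have h2 := (PiLp.norm_apply_le (x - c) i).trans hx
    have h3 : |x i - 1 / 2| ≤ 2 * (1 / 4) := by simpa [hc] using h2
    linarith
  rw [abs_le] at h1
  constructor <;> linarith

end IsInvF

theorem basic {d k : ℕ} {g : Fin k → Iso d} {D : AddSubgroup (E d)} {μ : Set (E d) → ENNReal}
    (hd : 1 ≤ d) (hD : Dense (D : Set (E d))) (h : IsInvF d k g D μ) :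
    (∀ A B : Set (E d), MeasurableSet A → MeasurableSet B → A ⊆ B → μ A ≤ μ B) ∧
    (∀ R : ℝ, μ (Metric.ball (0 : E d) R) ≠ ⊤) ∧
    (∀ ε : ℝ, 0 < ε → ∃ r : ℝ, 0 < r ∧ ∀ p : E d,
      μ (Metric.closedBall p r) ≤ ENNReal.ofReal ε) := by
  have hball : ∀ R : ℝ, μ (Metric.ball (0 : E d) R) ≠ ⊤ := by
    intro R
    obtain ⟨t, -, htf, ht⟩ := (isCompact_closedBall (0 : E d) R).finite_cover_balls
      (e := 1 / 4) (by norm_num)
    have h1 : Metric.ball (0 : E d) R ⊆ ⋃ p ∈ htf.toFinset, Metric.closedBall p (1 / 4) := by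
      intro x hx
      have h2 := ht (Metric.ball_subset_closedBall hx)
      simp only [mem_iUnion] at h2 ⊢
      obtain ⟨p, hp, hxp⟩ := h2
      exact ⟨p, by simpa using hp, Metric.ball_subset_closedBall hxp⟩
    have h2 := (h.mono Metric.isOpen_ball.measurableSet
      (htf.toFinset.measurableSet_biUnion fun p _ => Metric.isClosed_closedBall.measurableSet)
      h1).trans (h.biUnion_le _ _ fun p => Metric.isClosed_closedBall.measurableSet)
    have h3 : ∑ p ∈ htf.toFinset, μ (Metric.closedBall p (1 / 4)) ≤ ∑ p ∈ htf.toFinset, 1 :=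
      Finset.sum_le_sum fun p _ => h.closedBall_le_one hD p
    rw [Finset.sum_const, nsmul_eq_mul, mul_one] at h3
    exact ne_top_of_le_ne_top (ENNReal.natCast_ne_top _) (h2.trans h3)
  refine ⟨fun A B hA hB hAB => h.mono hA hB hAB, hball, ?_⟩
  intro ε hε
  set M := μ (Metric.ball (0 : E d) 2) with hM
  obtain ⟨N, hN⟩ := exists_nat_gt (M.toReal / ε)
  have hN0 : 0 < N := by
    rcases Nat.eq_zero_or_pos N with h0 | h0
    · subst h0
      have : 0 ≤ M.toReal / ε := by positivity
      simp at hN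
      linarith
    · exact h0
  have hNR : (0 : ℝ) < N := by exact_mod_cast hN0
  refine ⟨1 / (8 * N), by positivity, fun p => ?_⟩
  set r : ℝ := 1 / (4 * N) with hr
  have hrr : 2 * (1 / (8 * (N : ℝ))) = r := by rw [hr]; field_simp; norm_num
  set v : E d := EuclideanSpace.single (⟨0, hd⟩ : Fin d) (1 : ℝ) with hv
  have hvn : ‖v‖ = 1 := by rw [hv]; simp
  -- the disjoint balls
  set A : ℕ → Set (E d) := fun a => Metric.closedBall (((a : ℝ) / N) • v) r with hA
  have hdist : ∀ a b : ℕ, dist (((a : ℝ) / N) • v) (((b : ℝ) / N) • v) = |(a : ℝ) - b| / N := by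
    intro a b
    rw [dist_eq_norm, ← sub_smul, norm_smul, hvn, mul_one, Real.norm_eq_abs, ← sub_div, abs_div,
      abs_of_pos hNR]
  have hdisj : ∀ a b : ℕ, a ≠ b → Disjoint (A a) (A b) := by
    intro a b hab
    refine Metric.closedBall_disjoint_closedBall ?_
    rw [hdist]
    have h1 : (1 : ℝ) ≤ |(a : ℝ) - b| := by
      have h2 : (a : ℤ) - b ≠ 0 := by omega
      have h3 := Int.one_le_abs h2
      exact_mod_cast h3
    have h2 : r + r < 1 / N := by
      rw [hr, ← add_div, div_lt_div_iff₀ (by positivity) hNR]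
      nlinarith
    refine h2.trans_le ?_
    exact div_le_div_of_nonneg_right h1 hNR.le
  have h1 := h.biUnion_eq A (fun a => Metric.isClosed_closedBall.measurableSet) hdisj N
  have h2 : (N : ENNReal) * μ (Metric.closedBall p (1 / (8 * N))) ≤
      ∑ a ∈ Finset.range N, μ (A a) := by
    calc (N : ENNReal) * μ (Metric.closedBall p (1 / (8 * N)))
        = ∑ _a ∈ Finset.range N, μ (Metric.closedBall p (1 / (8 * N))) := by
          rw [Finset.sum_const, Finset.card_range, nsmul_eq_mul]
      _ ≤ ∑ a ∈ Finset.range N, μ (A a) := by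
          refine Finset.sum_le_sum fun a _ => ?_
          have h5 := h.closedBall_le hD p (((a : ℝ) / N) • v)
            (r := 1 / (8 * (N : ℝ))) (by positivity)
          rwa [hrr] at h5
  have h3 : (⋃ a ∈ Finset.range N, A a) ⊆ Metric.ball (0 : E d) 2 := by
    intro x hx
    simp only [mem_iUnion, Finset.mem_range] at hx
    obtain ⟨a, ha, hxa⟩ := hx
    rw [Metric.mem_ball]
    have h4 : dist x (((a : ℝ) / N) • v) ≤ r := hxa
    have h5 := hdist a 0
    simp only [Nat.cast_zero, zero_div, zero_smul, sub_zero] at h5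
    have h6 : |(a : ℝ)| / N < 1 := by
      rw [div_lt_one hNR, abs_of_nonneg (Nat.cast_nonneg a)]
      exact_mod_cast ha
    have h7 : r ≤ 1 := by
      rw [hr, div_le_one (by positivity)]
      have : (1 : ℝ) ≤ N := by exact_mod_cast hN0
      linarith
    have := dist_triangle x (((a : ℝ) / N) • v) 0
    linarith
  have h4 : (N : ENNReal) * μ (Metric.closedBall p (1 / (8 * N))) ≤ M := by
    refine h2.trans ?_
    rw [← h1]
    exact h.mono ((Finset.range N).measurableSet_biUnion fun a _ =>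
      Metric.isClosed_closedBall.measurableSet) Metric.isOpen_ball.measurableSet h3
  have hNe : (N : ENNReal) ≠ 0 := by exact_mod_cast hN0.ne'
  have h5 : M ≤ (N : ENNReal) * ENNReal.ofReal ε := by
    have h6 : M.toReal ≤ N * ε := by
      rw [div_lt_iff₀ hε] at hN
      exact hN.le
    have hMt : M ≠ ⊤ := hball 2
    rw [← ENNReal.ofReal_toReal hMt]
    refine (ENNReal.ofReal_le_ofReal h6).trans ?_
    rw [ENNReal.ofReal_mul hNR.le, ENNReal.ofReal_natCast]
  exact (ENNReal.mul_le_mul_iff_right hNe (ENNReal.natCast_ne_top N)).1 (h4.trans h5)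

/-- the slice version of the gluing lemma -/
theorem thin (hdr : P_drain) (d k : ℕ) (g : Fin k → Iso d) (C : ℝ) (hd : 1 ≤ d) (hC : 0 < C)
    (hf : Flow d k g C) (ε : ℝ) (hε : 0 < ε) :
    ∃ η : ℕ → ℝ, (∀ n, 0 < η n) ∧ ∀ (I : Set ℝ) (P : ℕ → Set (E d)), IsCompact I →
      (∀ r ∈ I, 0 < r) → (∀ n, IsClosed (P n)) → (∀ n, ∀ x ∈ P n, ‖x‖ ∈ I) →
      (∀ n, ∀ r ∈ I, sg d (sl (P n) r) ≤ ENNReal.ofReal (η n)) →
      ∀ m : Set (E d) → ℝ, (∀ A, MeasurableSet A → 0 ≤ m A) →
        (∀ A B, MeasurableSet A → MeasurableSet B → Disjoint A B → m (A ∪ B) = m A + m B) →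
        (∀ (i : Fin k) (A : Set (E d)), MeasurableSet A → m (g i ⁻¹' A) = m A) →
        ∀ U : Set (E d), MeasurableSet U → U ⊆ ⋃ n, P n → m U ≤ ε * m univ := by
  obtain ⟨N, hN1, hNs⟩ := exists_N8881 (2 * k * (2 * C)) ε (by positivity) hε
  let q : ℝ := 1 + 2 * k
  have hq : 1 ≤ q := by
    show (1 : ℝ) ≤ 1 + 2 * k
    have : (0 : ℝ) ≤ k := Nat.cast_nonneg k
    linarith
  have hq0 : 0 < q := by linarith
  let η : ℕ → ℝ := fun n => (1 / 8) / q ^ (N n)
  have hη : ∀ n, 0 < η n := fun n => by positivity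
  refine ⟨η, hη, fun I P hI hI0 hPc hPI hPm m hmn hma hmi U hU hPU => ?_⟩
  have hKm : ∀ n, ∀ r ∈ I, sg d (sl (aT (fun i => me (g i)) (P n) (N n)) r) ≤
      ENNReal.ofReal (1 / 8) := by
    intro n r hr
    refine (aT_sl hd g (P n) (hPc n) r (N n)).trans ?_
    have e1 : ((1 + 2 * k : ℕ) : ENNReal) ^ (N n) = ENNReal.ofReal (q ^ (N n)) := by
      rw [ENNReal.ofReal_pow hq0.le]
      congr 1
      rw [← ENNReal.ofReal_natCast]
      congr 1
      push_cast
      rfl
    calc ((1 + 2 * k : ℕ) : ENNReal) ^ (N n) * sg d (sl (P n) r)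
        ≤ ENNReal.ofReal (q ^ (N n)) * ENNReal.ofReal (η n) := by
          rw [e1]
          gcongr
          exact hPm n r hr
      _ = ENNReal.ofReal (1 / 8) := by
          rw [← ENNReal.ofReal_mul (by positivity)]
          congr 1
          show q ^ N n * ((1 / 8) / q ^ N n) = 1 / 8
          field_simp
  choose F hFm hFC hFK using fun n => hdr d k g C hd hC hf
    (aT (fun i => me (g i)) (P n) (N n)) I (aT_closed g (P n) (hPc n) (N n)) hI hI0 (hKm n)
  refine abs_glue k (fun i => me (g i)) (2 * C) (by positivity) m hmn hma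
    (fun i A hA => hmi i A hA) ε N hN1 hNs P (fun n => (hPc n).measurableSet) U hU hPU F hFm
    hFC (fun n x hx => ?_)
  exact hFK n x hx (aT_norm g (P n) I (hPI n) (N n) x hx)

section

variable {d : ℕ} {D : AddSubgroup (E d)} {μ : Set (E d) → ENNReal}

/-- the slice lemma for an invariant finitely additive measure on `E d` -/
theorem thin_mu (hdr : P_drain) (k : ℕ) (g : Fin k → Iso d) (C : ℝ) (hd : 1 ≤ d)
    (hC : 0 < C) (hf : Flow d k g C) (hD : Dense (D : Set (E d)))
    (h : IsInvF d k g D μ) (R' ε : ℝ) (hε : 0 < ε) :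
    ∃ η : ℕ → ℝ, (∀ n, 0 < η n) ∧ ∀ (I : Set ℝ) (P : ℕ → Set (E d)), IsCompact I →
      (∀ r ∈ I, 0 < r) → (∀ r ∈ I, r < R') → (∀ n, IsClosed (P n)) →
      (∀ n, ∀ x ∈ P n, ‖x‖ ∈ I) →
      (∀ n, ∀ r ∈ I, sg d (sl (P n) r) ≤ ENNReal.ofReal (η n)) →
      ∀ U : Set (E d), MeasurableSet U → U ⊆ ⋃ n, P n → μ U ≤ ENNReal.ofReal ε := by
  obtain ⟨hmono, hfin, -⟩ := basic hd hD h
  set M : ℝ := (μ (Metric.ball 0 R')).toReal with hM
  have hM0 : 0 ≤ M := ENNReal.toReal_nonneg
  obtain ⟨η, hη, H⟩ := thin hdr d k g C hd hC hf (ε / (M + 1)) (by positivity)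
  refine ⟨η, hη, fun I P hI hI0 hIR hPc hPI hPm U hU hPU => ?_⟩
  have hbm : MeasurableSet (Metric.ball (0 : E d) R') := Metric.isOpen_ball.measurableSet
  have hfin' : ∀ A : Set (E d), MeasurableSet A → μ (A ∩ Metric.ball 0 R') ≠ ⊤ := fun A hA =>
    ne_top_of_le_ne_top (hfin R') (hmono _ _ (hA.inter hbm) hbm inter_subset_right)
  have key := H I P hI hI0 hPc hPI hPm (fun A => (μ (A ∩ Metric.ball 0 R')).toReal)
    (fun A _ => ENNReal.toReal_nonneg)
    (fun A B hA hB hAB => by
      rw [union_inter_distrib_right, h.add _ _ (hA.inter hbm) (hB.inter hbm)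
        (hAB.mono inter_subset_left inter_subset_left),
        ENNReal.toReal_add (hfin' A hA) (hfin' B hB)])
    (fun i A hA => by
      congr 1
      have e : g i ⁻¹' A ∩ Metric.ball 0 R' = g i ⁻¹' (A ∩ Metric.ball 0 R') := by
        ext x
        simp
      rw [e, h.rot i _ (hA.inter hbm)])
    U hU hPU
  simp only [univ_inter] at key
  have hUb : U ∩ Metric.ball 0 R' = U := by
    refine inter_eq_left.2 (fun x hx => ?_)
    obtain ⟨n, hn⟩ := mem_iUnion.1 (hPU hx)
    rw [mem_ball_zero_iff]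
    exact hIR _ (hPI n x hn)
  rw [hUb] at key
  have hUf : μ U ≠ ⊤ := by
    have := hfin' U hU
    rwa [hUb] at this
  rw [← ENNReal.ofReal_toReal hUf]
  refine ENNReal.ofReal_le_ofReal (key.trans ?_)
  rw [← hM, div_mul_eq_mul_div, div_le_iff₀ (by positivity)]
  nlinarith

/-- radial sets over a small set of radii are small -/
theorem radial (hdr : P_drain) (hex : P_exh) (hsc : P_scd) (k : ℕ)
    (g : Fin k → Iso d) (C : ℝ) (hd : 2 ≤ d) (hC : 0 < C) (hf : Flow d k g C) (hD : Dense (D : Set (E d)))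
    (h : IsInvF d k g D μ) (hp1 : ∀ j : Fin d, EuclideanSpace.single j (1 : ℝ) ∈ D)
    (R ε : ℝ) (hR : 0 < R) (hε : 0 < ε) :
    ∃ δ : ℝ, 0 < δ ∧ ∀ J : Set ℝ, IsOpen J → volume J ≤ ENNReal.ofReal δ →
      μ {x : E d | ‖x‖ ∈ J ∧ ‖x‖ ≤ R} ≤ ENNReal.ofReal ε := by
  have hd1 : 1 ≤ d := by omega
  obtain ⟨hmono, hfin, hsmall⟩ := basic hd1 hD h
  obtain ⟨r₀, hr₀, hr₀s⟩ := hsmall (ε / 2) (by positivity)
  obtain ⟨η, hη, H⟩ := thin_mu hdr k g C hd1 hC hf hD h (R + 2) (ε / 2) (by positivity)
  let j : Fin d := ⟨0, by omega⟩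
  let p : E d := EuclideanSpace.single j 1
  have hp : ‖p‖ = 1 := by simp [p]
  choose δ hδ0 hδ using fun n => hsc d hd j (η n) (hη n)
  refine ⟨δ 0 * r₀ / R, by have := hδ0 0; positivity, fun J hJ hJv => ?_⟩
  have hJu : J ≠ univ := by
    rintro rfl
    simp at hJv
  obtain ⟨Q, hQc, hQv, hQU⟩ := hex ℝ volume J hJ (fun n => δ n * r₀ / R)
    (fun n => by have := hδ0 n; positivity) hJv hJu
  have hnorm_meas : Measurable (fun y : E d => ‖y‖) := continuous_norm.measurable
  have hWm : MeasurableSet {x : E d | ‖x‖ ∈ J ∧ ‖x‖ ≤ R} :=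
    (hnorm_meas hJ.measurableSet).inter (hnorm_meas measurableSet_Iic)
  rw [← h.tr p (hp1 _) _ hWm]
  set I : Set ℝ := Icc r₀ (R + 1) with hI
  set U : Set (E d) := {y | ‖y‖ ∈ I ∧ ‖y + p‖ ∈ J ∧ ‖y + p‖ ≤ R} with hUdef
  have hcp : Continuous (fun y : E d => ‖y + p‖) := by fun_prop
  have hUm : MeasurableSet U :=
    (hnorm_meas measurableSet_Icc).inter
      ((hcp.measurable hJ.measurableSet).inter (hcp.measurable measurableSet_Iic))
  have hsub : (fun x => x + p) ⁻¹' {x : E d | ‖x‖ ∈ J ∧ ‖x‖ ≤ R} ⊆ Metric.closedBall 0 r₀ ∪ U := by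
    rintro y ⟨hy1, hy2⟩
    rcases le_or_gt ‖y‖ r₀ with hy | hy
    · exact Or.inl (by simpa using hy)
    · refine Or.inr ⟨⟨hy.le, ?_⟩, hy1, hy2⟩
      have : ‖y‖ ≤ ‖y + p‖ + ‖p‖ := by
        have := norm_sub_le (y + p) p
        simpa using this
      rw [hp] at this
      have hy2' : ‖y + p‖ ≤ R := hy2
      linarith
  have hPW : MeasurableSet ((fun x => x + p) ⁻¹' {x : E d | ‖x‖ ∈ J ∧ ‖x‖ ≤ R}) :=
    (measurable_add_const p) hWm
  have hcb : MeasurableSet (Metric.closedBall (0 : E d) r₀) := Metric.isClosed_closedBall.measurableSet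
  refine (hmono _ _ hPW (hcb.union hUm) hsub).trans ?_
  refine (h.union_le hcb hUm).trans ?_
  have hUs : μ U ≤ ENNReal.ofReal (ε / 2) := by
    refine H I (fun n => {y | ‖y‖ ∈ I ∧ ‖y + p‖ ∈ Q n ∧ ‖y + p‖ ≤ R}) isCompact_Icc
      (fun r hr => hr₀.trans_le hr.1) (fun r hr => by have := hr.2; linarith) (fun n => ?_)
      (fun n x hx => hx.1) (fun n r hr => ?_) U hUm ?_
    · exact (isClosed_Icc.preimage continuous_norm).inter
        (((hQc n).preimage hcp).inter (isClosed_Iic.preimage hcp))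
    · have hr0 : 0 < r := hr₀.trans_le hr.1
      set A : Set ℝ := (fun s : ℝ => (s ^ 2 - 1 - r ^ 2) / (2 * r)) '' (Q n ∩ Icc 0 R) with hA
      have hlip : LipschitzOnWith (Real.toNNReal (R / r₀))
          (fun s : ℝ => (s ^ 2 - 1 - r ^ 2) / (2 * r)) (Q n ∩ Icc 0 R) := by
        refine LipschitzOnWith.of_dist_le_mul (fun s hs t ht => ?_)
        rw [Real.coe_toNNReal _ (by positivity), Real.dist_eq, Real.dist_eq]
        have e : (s ^ 2 - 1 - r ^ 2) / (2 * r) - (t ^ 2 - 1 - r ^ 2) / (2 * r) =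
            (s + t) / (2 * r) * (s - t) := by field_simp; ring
        rw [e, abs_mul]
        refine mul_le_mul_of_nonneg_right ?_ (abs_nonneg _)
        have hs1 := hs.2.1
        have hs2 := hs.2.2
        have ht1 := ht.2.1
        have ht2 := ht.2.2
        rw [abs_of_nonneg (by positivity), div_le_div_iff₀ (by positivity) hr₀]
        have h1 := hr.1
        nlinarith
      have hAc : IsCompact A := by
        refine ((isCompact_Icc.inter_left (hQc n))).image ?_
        fun_prop
      have hAv : volume A ≤ ENNReal.ofReal (δ n) := by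
        have h1 := hlip.hausdorffMeasure_image_le (d := 1) zero_le_one
        rw [hausdorffMeasure_real, ENNReal.rpow_one] at h1
        refine h1.trans ?_
        calc (Real.toNNReal (R / r₀) : ENNReal) * volume (Q n ∩ Icc 0 R)
            ≤ (Real.toNNReal (R / r₀) : ENNReal) * ENNReal.ofReal (δ n * r₀ / R) := by
              gcongr
              exact (measure_mono inter_subset_left).trans (hQv n)
          _ = ENNReal.ofReal (R / r₀) * ENNReal.ofReal (δ n * r₀ / R) := rfl
          _ = ENNReal.ofReal (δ n) := by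
              rw [← ENNReal.ofReal_mul (by positivity)]
              congr 1
              field_simp
      refine le_trans (measure_mono ?_) (hδ n A hAc.measurableSet hAv)
      intro ω hω
      obtain ⟨-, h2, h3⟩ := hω
      refine ⟨‖r • (ω : E d) + p‖, ⟨h2, norm_nonneg _, h3⟩, ?_⟩
      have hω1 : ‖(ω : E d)‖ = 1 := by simp
      have e1 : ‖r • (ω : E d) + p‖ ^ 2 = r ^ 2 + 2 * r * (ω : E d) j + 1 := by
        rw [norm_add_sq_real, norm_smul, hω1, hp, inner_smul_left]
        have : inner ℝ (ω : E d) p = (ω : E d) j := by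
          simp [p, EuclideanSpace.inner_single_right]
        rw [this]
        simp only [Real.norm_eq_abs, mul_one, sq_abs, conj_trivial]
        ring
      show (‖r • (ω : E d) + p‖ ^ 2 - 1 - r ^ 2) / (2 * r) = (ω : E d) j
      rw [e1]
      field_simp
      ring
    · rintro y ⟨hy1, hy2, hy3⟩
      obtain ⟨n, hn⟩ := mem_iUnion.1 (hQU hy2)
      exact mem_iUnion.2 ⟨n, hy1, hn, hy3⟩
  calc μ (Metric.closedBall 0 r₀) + μ U ≤ ENNReal.ofReal (ε / 2) + ENNReal.ofReal (ε / 2) :=
        add_le_add (hr₀s 0) hUs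
    _ = ENNReal.ofReal ε := by
        rw [← ENNReal.ofReal_add (by positivity) (by positivity)]
        congr 1
        ring

/-- absolute continuity on balls -/
theorem ac (hdr : P_drain) (hex : P_exh) (hsc : P_scd) (hpo : P_polar) (k : ℕ)
    (g : Fin k → Iso d) (C : ℝ) (hd : 2 ≤ d) (hC : 0 < C) (hf : Flow d k g C) (hD : Dense (D : Set (E d)))
    (h : IsInvF d k g D μ) (hp1 : ∀ j : Fin d, EuclideanSpace.single j (1 : ℝ) ∈ D) :
    AC d μ := by
  intro R₁ ε hε
  have hd1 : 1 ≤ d := by omega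
  obtain ⟨hmono, hfin, hsmall⟩ := basic hd1 hD h
  set R : ℝ := max R₁ 1 with hRdef
  have hR : 0 < R := lt_of_lt_of_le one_pos (le_max_right _ _)
  obtain ⟨r₁, hr₁, hr₁s⟩ := hsmall (ε / 3) (by positivity)
  set r₀ : ℝ := min r₁ R with hr₀def
  have hr₀ : 0 < r₀ := lt_min hr₁ hR
  have hr₀R : r₀ ≤ R := min_le_right _ _
  have hr₀s : μ (Metric.closedBall 0 r₀) ≤ ENNReal.ofReal (ε / 3) :=
    (hmono _ _ Metric.isClosed_closedBall.measurableSet Metric.isClosed_closedBall.measurableSet
      (Metric.closedBall_subset_closedBall (min_le_left _ _))).trans (hr₁s 0)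
  obtain ⟨δ, hδ, hrad⟩ := radial hdr hex hsc k g C hd hC hf hD h hp1 R (ε / 3) hR (by positivity)
  obtain ⟨η, hη, H⟩ := thin_mu hdr k g C hd1 hC hf hD h (R + 1) (ε / 3) (by positivity)
  obtain ⟨c, hc, hpol⟩ := hpo d hd1 r₀ R hr₀ hr₀R
  let θ : ℕ → ℝ := fun n => δ * (1 / 2) ^ (n + 2) * η n / c
  have hθ : ∀ n, 0 < θ n := fun n => by have := hη n; positivity
  refine ⟨θ 0, hθ 0, fun U hU hUb hUv => ?_⟩
  have hUu : U ≠ univ := by
    intro hcon
    rw [hcon] at hUb
    have : Nontrivial (E d) := nontriv_E d hd1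
    obtain ⟨x, hx⟩ := NormedSpace.exists_lt_norm ℝ (E d) R₁
    have := hUb (mem_univ x)
    rw [mem_ball_zero_iff] at this
    linarith
  obtain ⟨P, hPc, hPv, hPU⟩ := hex (E d) volume U hU θ hθ hUv hUu
  set Bad : ℕ → Set ℝ := fun n => {r | r₀ ≤ r ∧ r ≤ R ∧ ENNReal.ofReal (η n) < sg d (sl (P n) r)}
    with hBad
  have hBv : ∀ n, volume (Bad n) ≤ ENNReal.ofReal (δ * (1 / 2) ^ (n + 2)) := by
    intro n
    refine (hpol (P n) (η n) (hPc n).measurableSet (hη n)).trans ?_
    calc ENNReal.ofReal (c / η n) * volume (P n)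
        ≤ ENNReal.ofReal (c / η n) * ENNReal.ofReal (θ n) := by gcongr; exact hPv n
      _ = ENNReal.ofReal (δ * (1 / 2) ^ (n + 2)) := by
          have := hη n
          rw [← ENNReal.ofReal_mul (by positivity)]
          congr 1
          show c / η n * (δ * (1 / 2) ^ (n + 2) * η n / c) = _
          field_simp
  have hBt : volume (⋃ n, Bad n) < ENNReal.ofReal δ := by
    have hs : HasSum (fun n : ℕ => δ * (1 / 2 : ℝ) ^ (n + 2)) (δ * (1 / 2)) := by
      have h1 := (hasSum_geometric_two).mul_left (δ * (1 / 4))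
      have e : (fun n : ℕ => δ * (1 / 2 : ℝ) ^ (n + 2)) =
          fun n : ℕ => δ * (1 / 4) * (1 / 2 : ℝ) ^ n := by
        funext n; ring
      have e2 : δ * (1 / 2 : ℝ) = δ * (1 / 4) * 2 := by ring
      rw [e, e2]
      exact h1
    calc volume (⋃ n, Bad n) ≤ ∑' n, volume (Bad n) := measure_iUnion_le _
      _ ≤ ∑' n, ENNReal.ofReal (δ * (1 / 2) ^ (n + 2)) := ENNReal.tsum_le_tsum hBv
      _ = ENNReal.ofReal (δ * (1 / 2)) := by
          rw [← ENNReal.ofReal_tsum_of_nonneg (fun n => by positivity) hs.summable, hs.tsum_eq]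
      _ < ENNReal.ofReal δ := by
          rw [ENNReal.ofReal_lt_ofReal_iff hδ]
          linarith
  obtain ⟨J, hJs, hJo, hJv⟩ := (⋃ n, Bad n).exists_isOpen_lt_of_lt _ hBt
  have hnorm_meas : Measurable (fun y : E d => ‖y‖) := continuous_norm.measurable
  set I : Set ℝ := Icc r₀ R ∩ Jᶜ with hI
  have hIc : IsCompact I := isCompact_Icc.inter_right hJo.isClosed_compl
  set V : Set (E d) := U ∩ {x | ‖x‖ ∈ I} with hV
  have hVm : MeasurableSet V := hU.measurableSet.inter (hnorm_meas hIc.measurableSet)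
  have hVs : μ V ≤ ENNReal.ofReal (ε / 3) := by
    refine H I (fun n => P n ∩ {x | ‖x‖ ∈ I}) hIc (fun r hr => hr₀.trans_le hr.1.1)
      (fun r hr => by have := hr.1.2; linarith) (fun n => ?_) (fun n x hx => hx.2)
      (fun n r hr => ?_) V hVm ?_
    · exact (hPc n).inter (hIc.isClosed.preimage continuous_norm)
    · have hnb : r ∉ Bad n := fun hcon => hr.2 (hJs (mem_iUnion.2 ⟨n, hcon⟩))
      have : ¬ ENNReal.ofReal (η n) < sg d (sl (P n) r) := fun hcon =>
        hnb ⟨hr.1.1, hr.1.2, hcon⟩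
      exact (measure_mono (fun ω hω => hω.1)).trans (not_lt.1 this)
    · rintro x ⟨hx1, hx2⟩
      obtain ⟨n, hn⟩ := mem_iUnion.1 (hPU hx1)
      exact mem_iUnion.2 ⟨n, hn, hx2⟩
  have hWm : MeasurableSet {x : E d | ‖x‖ ∈ J ∧ ‖x‖ ≤ R} :=
    (hnorm_meas hJo.measurableSet).inter (hnorm_meas measurableSet_Iic)
  have hcb : MeasurableSet (Metric.closedBall (0 : E d) r₀) := Metric.isClosed_closedBall.measurableSet
  have hsub : U ⊆ Metric.closedBall 0 r₀ ∪ ({x : E d | ‖x‖ ∈ J ∧ ‖x‖ ≤ R} ∪ V) := by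
    intro x hx
    have hxR : ‖x‖ ≤ R := by
      have := hUb hx
      rw [mem_ball_zero_iff] at this
      exact this.le.trans (le_max_left _ _)
    rcases le_or_gt ‖x‖ r₀ with h1 | h1
    · exact Or.inl (by simpa using h1)
    · refine Or.inr ?_
      by_cases h2 : ‖x‖ ∈ J
      · exact Or.inl ⟨h2, hxR⟩
      · exact Or.inr ⟨hx, ⟨h1.le, hxR⟩, h2⟩
  refine (hmono _ _ hU.measurableSet (hcb.union (hWm.union hVm)) hsub).trans ?_
  refine (h.union_le hcb (hWm.union hVm)).trans ?_
  calc μ (Metric.closedBall 0 r₀) + μ ({x : E d | ‖x‖ ∈ J ∧ ‖x‖ ≤ R} ∪ V)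
      ≤ ENNReal.ofReal (ε / 3) + (ENNReal.ofReal (ε / 3) + ENNReal.ofReal (ε / 3)) :=
        add_le_add hr₀s ((h.union_le hWm hVm).trans (add_le_add (hrad J hJo hJv.le) hVs))
    _ = ENNReal.ofReal ε := by
        rw [← ENNReal.ofReal_add (by positivity) (by positivity),
          ← ENNReal.ofReal_add (by positivity) (by positivity)]
        congr 1
        ring

end

/-- countable additivity inside a ball -/
theorem fin_cadd {d k : ℕ} {g : Fin k → Iso d} {D : AddSubgroup (E d)}
    {μ : Set (E d) → ENNReal} (hμ : IsInvF d k g D μ) (hac : AC d μ)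
    (hmono : ∀ A B : Set (E d), MeasurableSet A → MeasurableSet B → A ⊆ B → μ A ≤ μ B)
    (R : ℝ) (f : ℕ → Set (E d)) (hf : ∀ i, MeasurableSet (f i)) (hR : ∀ i, f i ⊆ Metric.ball 0 R)
    (hdis : Pairwise (Function.onFun Disjoint f)) : μ (⋃ i, f i) = ∑' i, μ (f i) := by
  set P : ℕ → Set (E d) := fun N => ⋃ i ∈ Finset.range N, f i with hP
  have hPm : ∀ N, MeasurableSet (P N) := fun N =>
    Finset.measurableSet_biUnion _ fun i _ => hf i
  have hUm : MeasurableSet (⋃ i, f i) := MeasurableSet.iUnion hf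
  have hPs : ∀ N, P (N + 1) = P N ∪ f N := by
    intro N
    simp only [hP]
    rw [Finset.range_add_one, Finset.set_biUnion_insert, union_comm]
  have hsum : ∀ N, μ (P N) = ∑ i ∈ Finset.range N, μ (f i) := by
    intro N
    induction N with
    | zero => simp [hP, hμ.empty]
    | succ N ih =>
      rw [hPs, hμ.add _ _ (hPm N) (hf N), ih, Finset.sum_range_succ]
      simp only [hP]
      rw [Set.disjoint_left]
      intro x hx hxN
      simp only [mem_iUnion, Finset.mem_range] at hx
      obtain ⟨i, hi, hxi⟩ := hx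
      exact Set.disjoint_left.1 (hdis hi.ne) hxi hxN
  have hPU : ∀ N, P N ⊆ ⋃ i, f i := fun N => iUnion₂_subset fun i _ => subset_iUnion f i
  set B : ℕ → Set (E d) := fun N => (⋃ i, f i) \ P N with hB
  have hBm : ∀ N, MeasurableSet (B N) := fun N => hUm.diff (hPm N)
  have hUR : (⋃ i, f i) ⊆ Metric.ball 0 R := iUnion_subset hR
  have hsplit : ∀ N, μ (⋃ i, f i) = μ (P N) + μ (B N) := by
    intro N
    rw [← hμ.add _ _ (hPm N) (hBm N) disjoint_sdiff_right, union_diff_cancel (hPU N)]
  have hanti : Antitone B := by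
    intro N M hNM
    refine diff_subset_diff_right ?_
    exact iUnion₂_subset fun i hi => subset_iUnion₂ (s := fun i (_ : i ∈ Finset.range M) => f i) i
      (Finset.mem_range.2 ((Finset.mem_range.1 hi).trans_le hNM))
  have hinter : ⋂ N, B N = ∅ := by
    rw [Set.eq_empty_iff_forall_notMem]
    intro x hx
    have h0 := mem_iInter.1 hx 0
    obtain ⟨i, hi⟩ := mem_iUnion.1 h0.1
    exact (mem_iInter.1 hx (i + 1)).2 (mem_iUnion₂.2 ⟨i, Finset.mem_range.2 (Nat.lt_succ_self i), hi⟩)
  have hlim : Filter.Tendsto (fun N => volume (B N)) Filter.atTop (nhds 0) := by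
    have := tendsto_measure_iInter_atTop (μ := (volume : Measure (E d))) (s := B)
      (fun N => (hBm N).nullMeasurableSet) hanti
      ⟨0, ((measure_mono (diff_subset.trans hUR)).trans_lt measure_ball_lt_top).ne⟩
    rw [hinter, measure_empty] at this
    exact this
  apply le_antisymm
  · refine ENNReal.le_of_forall_pos_le_add ?_
    intro ε hε _
    obtain ⟨η, hη, hU⟩ := hac R ε (by exact_mod_cast hε)
    have hev := hlim.eventually_lt_const (ENNReal.ofReal_pos.2 hη)
    obtain ⟨N, hN⟩ := hev.exists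
    obtain ⟨V, hBV, hVo, hVlt⟩ := (B N).exists_isOpen_lt_of_lt _ hN
    have h1 : μ (B N) ≤ ε := by
      refine (hmono (B N) (V ∩ Metric.ball 0 R) (hBm N)
        (hVo.inter Metric.isOpen_ball).measurableSet
        (subset_inter hBV (diff_subset.trans hUR))).trans ?_
      refine (hU _ (hVo.inter Metric.isOpen_ball) inter_subset_right
        ((measure_mono inter_subset_left).trans hVlt.le)).trans ?_
      simp
    rw [hsplit N, hsum N]
    exact add_le_add (ENNReal.sum_le_tsum _) h1
  · rw [ENNReal.tsum_eq_iSup_nat]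
    refine iSup_le fun N => ?_
    rw [← hsum N]
    exact hmono _ _ (hPm N) hUm (hPU N)

/-- absolute continuity on balls gives Lebesgue measure on bounded Borel sets -/
theorem final {d k : ℕ} {g : Fin k → Iso d} {D : AddSubgroup (E d)} {μ : Set (E d) → ENNReal}
    (hd : 1 ≤ d) (hD : Dense (D : Set (E d))) (hμ : IsInvF d k g D μ) (hac : AC d μ)
    (A : Set (E d)) (hA : MeasurableSet A) (hbA : Bornology.IsBounded A) : μ A = volume A := by
  obtain ⟨hmono, hfin, -⟩ := basic hd hD hμ
  have hν_emp : ∀ n : ℕ, μ (∅ ∩ fsh d n) = 0 := by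
    intro n
    rw [empty_inter, hμ.empty]
  set νn : ℕ → Measure (E d) := fun n =>
    Measure.ofMeasurable (fun A _ => μ (A ∩ fsh d n)) (hν_emp n) (by
      intro f hf hdis
      show μ ((⋃ i, f i) ∩ fsh d n) = ∑' i, μ (f i ∩ fsh d n)
      rw [iUnion_inter]
      refine fin_cadd hμ hac hmono (n + 1) _ (fun i => (hf i).inter (fsh_meas d n))
        (fun i => inter_subset_right.trans (fsh_ball d n)) ?_
      intro i j hij
      exact (hdis hij).mono inter_subset_left inter_subset_left) with hνn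
  have hνna : ∀ n, ∀ A : Set (E d), MeasurableSet A → νn n A = μ (A ∩ fsh d n) :=
    fun n A hA => Measure.ofMeasurable_apply A hA
  set ν : Measure (E d) := Measure.sum νn with hν
  have hνb : ∀ A : Set (E d), MeasurableSet A → Bornology.IsBounded A → ν A = μ A := by
    intro A hA hbA
    obtain ⟨R, hR⟩ := hbA.subset_ball 0
    rw [hν, Measure.sum_apply _ hA]
    simp_rw [hνna _ A hA]
    rw [← fin_cadd hμ hac hmono R _ (fun i => hA.inter (fsh_meas d i))
      (fun i => inter_subset_left.trans hR) ?_, ← inter_iUnion, fsh_union, inter_univ]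
    intro i j hij
    exact (fsh_disj d hij).mono inter_subset_right inter_subset_right
  have hfc : IsFiniteMeasureOnCompacts ν := by
    refine ⟨fun K hK => ?_⟩
    obtain ⟨R, hR⟩ := hK.isBounded.subset_ball 0
    refine (measure_mono hR).trans_lt ?_
    rw [hνb _ Metric.isOpen_ball.measurableSet Metric.isBounded_ball]
    exact lt_top_iff_ne_top.2 (hfin R)
  have hmeas : ∀ v : E d, Measurable fun x : E d => x + v := fun v => measurable_add_const v
  have hbdd : ∀ (v : E d) (A : Set (E d)), Bornology.IsBounded A →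
      Bornology.IsBounded ((fun x : E d => x + v) ⁻¹' A) := by
    intro v A hA
    have himg : (fun x : E d => x + v) ⁻¹' A = (IsometryEquiv.addRight (-v)) '' A := by
      ext x
      simp only [mem_preimage, mem_image]
      constructor
      · intro hx
        exact ⟨x + v, hx, by simp⟩
      · rintro ⟨y, hy, rfl⟩
        simpa using hy
    rw [himg]
    exact (IsometryEquiv.isometry (IsometryEquiv.addRight (-v))).lipschitz.isBounded_image hA
  have hDinv : ∀ v ∈ D, ∀ A : Set (E d), MeasurableSet A → Bornology.IsBounded A →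
      ν ((fun x => x + v) ⁻¹' A) = ν A := by
    intro v hv A hA hbA
    rw [hνb _ ((hmeas v) hA) (hbdd v A hbA), hνb _ hA hbA, hμ.tr v hv A hA]
  have hKle : ∀ (K : Set (E d)), IsCompact K → ∀ v : E d, ν K ≤ ν ((fun x => x + v) ⁻¹' K) := by
    intro K hK v
    have hKv : IsCompact ((fun x : E d => x + v) ⁻¹' K) :=
      (Homeomorph.addRight v).isCompact_preimage.2 hK
    rw [Set.measure_eq_iInf_isOpen ((fun x : E d => x + v) ⁻¹' K) ν]
    refine le_iInf₂ fun U hU => le_iInf fun hUo => ?_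
    obtain ⟨δ, hδ, hδU⟩ := hKv.exists_thickening_subset_open hUo hU
    obtain ⟨w, hw, hwv⟩ := Metric.mem_closure_iff.1 (hD v) δ hδ
    rw [← hDinv w hw K hK.measurableSet hK.isBounded]
    refine measure_mono ?_
    intro x hx
    apply hδU
    rw [Metric.mem_thickening_iff]
    refine ⟨x + w - v, ?_, ?_⟩
    · show x + w - v + v ∈ K
      rw [sub_add_cancel]
      exact hx
    · rw [dist_eq_norm] at hwv ⊢
      have e : x - (x + w - v) = v - w := by abel
      rw [e]
      exact hwv
  have hAle : ∀ A : Set (E d), MeasurableSet A → Bornology.IsBounded A → ∀ v : E d,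
      ν A ≤ ν ((fun x => x + v) ⁻¹' A) := by
    intro A hA hbA v
    have hfinA : ν A ≠ ⊤ := by
      obtain ⟨R, hR⟩ := hbA.subset_ball 0
      rw [hνb A hA hbA]
      exact ne_top_of_le_ne_top (hfin R) (hmono _ _ hA Metric.isOpen_ball.measurableSet hR)
    rw [hA.measure_eq_iSup_isCompact_of_ne_top hfinA]
    refine iSup₂_le fun K hKA => iSup_le fun hK => ?_
    exact (hKle K hK v).trans (measure_mono (preimage_mono hKA))
  have hinv : ν.IsAddLeftInvariant := by
    refine ⟨fun v => ?_⟩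
    have hme : Measurable fun x : E d => v + x := measurable_const_add v
    refine ext_bdd fun A hA hbA => ?_
    rw [Measure.map_apply hme hA]
    have e : (fun x : E d => v + x) ⁻¹' A = (fun x : E d => x + v) ⁻¹' A := by
      ext x
      show v + x ∈ A ↔ x + v ∈ A
      rw [add_comm]
    rw [e]
    apply le_antisymm
    · have h1 := hAle _ ((hmeas v) hA) (hbdd v A hbA) (-v)
      have e2 : (fun x : E d => x + -v) ⁻¹' ((fun x : E d => x + v) ⁻¹' A) = A := by
        ext x
        show x + -v + v ∈ A ↔ x ∈ A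
        rw [neg_add_cancel_right]
      rwa [e2] at h1
    · exact hAle A hA hbA v
  have hsm := Measure.isAddLeftInvariant_eq_smul ν (volume : Measure (E d))
  set c := Measure.addHaarScalarFactor ν (volume : Measure (E d)) with hc
  have hcm : MeasurableSet {x : E d | ∀ i, 0 ≤ x i ∧ x i ≤ 1} := by
    have : {x : E d | ∀ i, 0 ≤ x i ∧ x i ≤ 1} =
        ⋂ i, ({x : E d | 0 ≤ x i} ∩ {x : E d | x i ≤ 1}) := by
      ext x; simp
    rw [this]
    refine MeasurableSet.iInter fun i => ?_
    have hi : Measurable fun x : E d => x i := by fun_prop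
    exact (measurableSet_le measurable_const hi).inter (measurableSet_le hi measurable_const)
  have hcb : Bornology.IsBounded {x : E d | ∀ i, 0 ≤ x i ∧ x i ≤ 1} := by
    refine (Metric.isBounded_closedBall (x := (0 : E d)) (r := Real.sqrt d)).subset ?_
    intro x hx
    rw [mem_closedBall_zero_iff, EuclideanSpace.norm_eq]
    apply Real.sqrt_le_sqrt
    calc ∑ i, ‖x i‖ ^ 2 ≤ ∑ _i : Fin d, (1 : ℝ) := by
          refine Finset.sum_le_sum fun i _ => ?_
          rw [Real.norm_eq_abs, abs_of_nonneg (hx i).1]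
          exact pow_le_one₀ (hx i).1 (hx i).2
      _ = (d : ℝ) := by simp
  have hc1 : (c : ENNReal) = 1 := by
    have h1 := hνb _ hcm hcb
    rw [hμ.cube, hsm, Measure.smul_apply, vol_cube] at h1
    simpa using h1
  have h2 : ν = volume := by
    rw [hsm]
    have : c = 1 := by exact_mod_cast hc1
    rw [this, one_smul]
  rw [← hνb A hA hbA, h2]


/-- The main theorem: a family of rotations with a spectral gap and a dense group of
translations. -/
theorem main {d k : ℕ} {g : Fin k → Iso d} {κ : ℝ} (hg : SGD d k g κ) {D : AddSubgroup (E d)}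
    {μ : Set (E d) → ENNReal} (hd : 2 ≤ d) (hD : Dense (D : Set (E d)))
    (hp1 : ∀ j : Fin d, EuclideanSpace.single j (1 : ℝ) ∈ D) (h : IsInvF d k g D μ)
    (A : Set (E d)) (hA : MeasurableSet A) (hb : Bornology.IsBounded A) : μ A = volume A := by
  obtain ⟨ε₀, h0, hmov⟩ := mov_of_gap d (by omega) k g κ hg
  have hfl := flow_of_mov d (by omega) k g ε₀ h0 hmov
  exact final (by omega) hD h
    (ac t_drain t_exh t_scd t_polar k g (1 / ε₀) (by omega) (by positivity) hfl hD h hp1) A hA hb

end Pool.Agent.Y779.RZ.Eu
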