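import Pool.Agent.Helper557.Rz.M_gap3
import Pool.Agent.Helper557.Rz.M_gapd
import Pool.Agent.Helper557.Rz.M_erg

/-!
# Spectral gaps for families of rotations

The theorems `gap3` and `gap_of_gap3` of `Helper557.Rz` with the information that the isometries of
the family are squares of isometries (so that they are rotations).
-/

set_option autoImplicit false

open MeasureTheory Set
open scoped Quaternion
open Pool.Agent.Helper557.Rz hiding gap3 gap_of_gap3

namespace Pool.Agent.Y779.RZ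

/-- There is a finite family of squares of isometries with a spectral gap. -/
def SGs (d : ℕ) : Prop := ∃ (k : ℕ) (g : Fin k → Iso d) (κ : ℝ), SGD d k g κ ∧
  ∀ i, ∃ h : Iso d, g i = h * h

theorem sq_aux : ∃ x y : ℝ, x * y = 1 ∧ x * x - y * y = 1 := by
  have h5 : √5 * √5 = (5 : ℝ) := Real.mul_self_sqrt (by norm_num)
  have h5p : 0 ≤ √5 := Real.sqrt_nonneg 5
  set x := √((1 + √5) / 2) with hx
  have hx2 : x * x = (1 + √5) / 2 := Real.mul_self_sqrt (by positivity)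
  have hxp : 0 < x := Real.sqrt_pos.2 (by positivity)
  have hy : x * x⁻¹ = 1 := mul_inv_cancel₀ hxp.ne'
  refine ⟨x, x⁻¹, hy, ?_⟩
  have h1 : x⁻¹ * x⁻¹ = (√5 - 1) / 2 := by
    have h2 : (x * x) * (x⁻¹ * x⁻¹) = 1 := by
      calc (x * x) * (x⁻¹ * x⁻¹) = (x * x⁻¹) * (x * x⁻¹) := by ring
        _ = 1 := by rw [hy, one_mul]
    rw [hx2] at h2
    have h3 : (1 + √5) / 2 * ((√5 - 1) / 2) = 1 := by nlinarith
    have h4 : (1 + √5) / 2 ≠ 0 := by positivity
    exact mul_left_cancel₀ h4 (h2.trans h3.symm)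
  rw [hx2, h1]
  ring

theorem ua_sq (a : Fin 6) : ∃ p : ℍ[ℝ]ˣ, p * p = ua a := by
  obtain ⟨x, y, h1, h2⟩ := sq_aux
  have key : ∀ (e : ℍ[ℝ]) (u v w : ℝ), e = ⟨1, 2 * u, 2 * v, 2 * w⟩ → u * u + v * v + w * w = 1 →
      (⟨x, y * u, y * v, y * w⟩ : ℍ[ℝ]) * ⟨x, y * u, y * v, y * w⟩ = e := by
    intro e u v w he h3
    subst he
    ext
    · simp
      nlinarith [h1, h2, h3]
    · simp
      linear_combination (2 * u) * h1
    · simp
      linear_combination (2 * v) * h1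
    · simp
      linear_combination (2 * w) * h1
  have key2 : ∀ (u v w : ℝ), cz (al a) = ⟨1, 2 * u, 2 * v, 2 * w⟩ → u * u + v * v + w * w = 1 →
      ∃ p : ℍ[ℝ]ˣ, p * p = ua a := by
    intro u v w he h3
    have h4 := key _ u v w he h3
    have h5 : (⟨x, y * u, y * v, y * w⟩ : ℍ[ℝ]) ≠ 0 := by
      intro h0
      rw [h0, mul_zero] at h4
      exact cz_al_ne a h4.symm
    refine ⟨Units.mk0 _ h5, Units.ext ?_⟩
    exact h4
  fin_cases a
  · exact key2 1 0 0 (by ext <;> simp [cz, al]) (by norm_num)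
  · exact key2 0 1 0 (by ext <;> simp [cz, al]) (by norm_num)
  · exact key2 0 0 1 (by ext <;> simp [cz, al]) (by norm_num)
  · exact key2 (-1) 0 0 (by ext <;> simp [cz, al]) (by norm_num)
  · exact key2 0 (-1) 0 (by ext <;> simp [cz, al]) (by norm_num)
  · exact key2 0 0 (-1) (by ext <;> simp [cz, al]) (by norm_num)

/-- `Helper557.Rz.gap3`, with the information that the six isometries are the rotations of the six
integral quaternions of norm `5`. -/
theorem gap3 : ∃ R : ℍ[ℝ]ˣ →* Iso 3, (∀ (q : ℍ[ℝ]ˣ) (x : E 3),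
    imq (R q x) = (q : ℍ[ℝ]) * imq x * ((q⁻¹ : ℍ[ℝ]ˣ) : ℍ[ℝ])) ∧
    ∃ κ : ℝ, SGD 3 6 (fun a => R (ua a)) κ := by
  classical
  haveI := sg_prob 3 (by norm_num)
  obtain ⟨R, hR⟩ := exists_RQ
  obtain ⟨l₀, N₀, hl₀, hN₀, hlow⟩ := eig_low R hR
  -- stable spaces
  have hstab : ∀ N : ℕ, 1 ≤ N → ∃ (L : C(S 3, ℝ) →ₗ[ℝ] C(S 3, ℝ)) (V : Submodule ℝ C(S 3, ℝ)),
      (∀ ψ x, L ψ x = MN N ψ x) ∧ FiniteDimensional ℝ V ∧ (∀ f, L (TT R f) = TT R (L f)) ∧
      (∀ f ∈ V, TT R f ∈ V) ∧ (∀ f ∈ V, II f = 0) ∧ (∀ f, II f = 0 → L f ∈ V) := by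
    intro N hN
    obtain ⟨L, hL1, hL2, hL3, hL4⟩ := MN_facts N hN
    have hc : ∀ f, L (TT R f) = TT R (L f) := by
      intro f
      rw [TT_eq, TT_eq, map_sum]
      exact Finset.sum_congr rfl (fun a _ => hL3 _ _)
    refine ⟨L, LinearMap.range L ⊓ LinearMap.ker II, hL1, ?_, hc, ?_, ?_, ?_⟩
    · haveI := hL2
      exact Submodule.finiteDimensional_inf_left _ _
    · rintro f ⟨⟨f', rfl⟩, hf⟩
      refine ⟨⟨TT R f', hc f'⟩, ?_⟩
      have h1 : II (L f') = 0 := hf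
      show II (TT R (L f')) = 0
      rw [TT_eq, map_sum]
      exact Finset.sum_eq_zero (fun a _ => by rw [II_rot, h1])
    · rintro f ⟨_, hf⟩
      exact hf
    · intro f hf
      refine ⟨⟨f, rfl⟩, ?_⟩
      show II (L f) = 0
      rw [II_apply, hL4 f]
      exact hf
  -- the bound on the spaces
  obtain ⟨l₁, hl₁, hbound⟩ : ∃ l₁ : ℝ, l₁ < 6 ∧ ∀ N : ℕ, 1 ≤ N → ∀ (V : Submodule ℝ C(S 3, ℝ)),
      FiniteDimensional ℝ V → (∀ f ∈ V, TT R f ∈ V) → (∀ f ∈ V, II f = 0) →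
      ∀ f ∈ V, II (TT R f * f) ≤ l₁ * II (f * f) := by
    obtain ⟨L₀, V₀, hL₀, hfd₀, hcom₀, hTV₀, hZ₀, hLV₀⟩ := hstab N₀ hN₀
    -- common step
    have hstep : ∀ (l₁ : ℝ), l₀ ≤ l₁ → (∀ φ ∈ V₀, φ ≠ 0 → ∀ lm : ℝ, TT R φ = lm • φ → lm ≤ l₁) →
        ∀ (V : Submodule ℝ C(S 3, ℝ)),
        FiniteDimensional ℝ V → (∀ f ∈ V, TT R f ∈ V) → (∀ f ∈ V, II f = 0) →
        ∀ f ∈ V, II (TT R f * f) ≤ l₁ * II (f * f) := by
      intro l₁ hl hφ V hfd hTV hZ f hf
      by_cases hV : V = ⊥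
      · subst hV
        have : f = 0 := by simpa using hf
        subst this
        simp
      obtain ⟨v, hv, hv0, lm, hlm, htop⟩ := topV (TT R) (TT_sym R hR) V hfd hV hTV
      have hlm1 : lm ≤ l₁ := by
        by_contra hcon
        push Not at hcon
        have hvp := II_pos v hv0
        have hlm6 : lm ≤ 6 := by
          have h1 := TT_le R v
          rw [hlm, smul_mul_assoc, map_smul, smul_eq_mul] at h1
          exact le_of_mul_le_mul_right h1 hvp
        -- normalise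
        set s := (Real.sqrt (II (v * v)))⁻¹ with hs
        have hsp : 0 < Real.sqrt (II (v * v)) := Real.sqrt_pos.mpr hvp
        have hs2 : s * s * II (v * v) = 1 := by
          have h2 : Real.sqrt (II (v * v)) * Real.sqrt (II (v * v)) = II (v * v) :=
            Real.mul_self_sqrt hvp.le
          rw [hs]
          nth_rewrite 3 [← h2]
          field_simp
        set w := s • v with hw
        have hww : II (w * w) = 1 := by
          rw [hw, smul_mul_smul_comm, map_smul, smul_eq_mul]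
          exact hs2
        have hTw : TT R w = lm • w := by
          rw [hw, map_smul, hlm, smul_comm]
        have hw0 : II w = 0 := by
          rw [hw, map_smul, hZ v hv, smul_zero]
        have h1 := hlow w lm (fun x => by
          rw [← TT_apply, hTw]
          rfl) (by
          rw [← hww, II_apply]
          refine integral_congr_ae (Filter.Eventually.of_forall (fun x => ?_))
          show w x ^ 2 = w x * w x
          ring) (hl.trans hcon.le) hlm6
        have h2 : ∫ x, ∫ y, kk N₀ x y * w x * w y ∂(sg 3) ∂(sg 3) = II (w * L₀ w) := by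
          rw [II_apply]
          refine integral_congr_ae (Filter.Eventually.of_forall (fun x => ?_))
          show ∫ y, kk N₀ x y * w x * w y ∂(sg 3) = w x * L₀ w x
          rw [hL₀, MN, ← integral_const_mul]
          refine integral_congr_ae (Filter.Eventually.of_forall (fun y => ?_))
          show kk N₀ x y * w x * w y = w x * (kk N₀ x y * w y)
          ring
        rw [h2] at h1
        have hne : L₀ w ≠ 0 := by
          intro h
          rw [h, mul_zero, map_zero] at h1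
          norm_num at h1
        have h3 := hφ (L₀ w) (hLV₀ w hw0) hne lm (by rw [← hcom₀, hTw, map_smul])
        linarith
      have hf2 := htop f hf
      exact hf2.trans (mul_le_mul_of_nonneg_right hlm1 (II_nonneg f))
    by_cases hV₀ : V₀ = ⊥
    · refine ⟨l₀, hl₀, fun N hN V => hstep l₀ le_rfl ?_ V⟩
      intro φ hφ hφ0
      exfalso
      apply hφ0
      rw [hV₀] at hφ
      simpa using hφ
    · obtain ⟨v, hv, hv0, ls, hls, htop⟩ := topV (TT R) (TT_sym R hR) V₀ hfd₀ hV₀ hTV₀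
      have hvp := II_pos v hv0
      have h1 : II (TT R v * v) = ls * II (v * v) := by
        rw [hls, smul_mul_assoc, map_smul, smul_eq_mul]
      have hls6 : ls < 6 := by
        have hle : ls ≤ 6 := by
          have h2 := TT_le R v
          rw [h1] at h2
          exact le_of_mul_le_mul_right h2 hvp
        rcases hle.lt_or_eq with h | h
        · exact h
        · exfalso
          apply hv0
          rw [h] at h1
          exact TT_eq_six R hR v h1 (hZ₀ v hv)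
      refine ⟨max l₀ ls, max_lt hl₀ hls6, fun N hN V => hstep _ (le_max_left _ _) ?_ V⟩
      intro φ hφ hφ0 lm hlm
      have h2 := htop φ hφ
      rw [hlm, smul_mul_assoc, map_smul, smul_eq_mul] at h2
      exact (le_of_mul_le_mul_right h2 (II_pos φ hφ0)).trans (le_max_right _ _)
  -- zero mean functions
  have hzero : ∀ ψ : C(S 3, ℝ), II ψ = 0 → II (TT R ψ * ψ) ≤ l₁ * II (ψ * ψ) := by
    intro ψ hψ
    have hch : ∀ N : ℕ, 1 ≤ N → ∃ f : C(S 3, ℝ), (∀ x, f x = MN N ψ x) ∧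
        II (TT R f * f) ≤ l₁ * II (f * f) := by
      intro N hN
      obtain ⟨L, V, hL, hfd, hcom, hTV, hZ, hLV⟩ := hstab N hN
      exact ⟨L ψ, hL ψ, hbound N hN V hfd hTV hZ (L ψ) (hLV ψ hψ)⟩
    choose! f hf1 hf2 using hch
    have hlim : Filter.Tendsto f Filter.atTop (nhds ψ) := by
      rw [Metric.tendsto_atTop]
      intro ε hε
      obtain ⟨N₁, hN₁, h1⟩ := MN_tendsto ψ (ε / 2) (by positivity)
      refine ⟨N₁, fun N hN => ?_⟩
      have h2 : dist (f N) ψ ≤ ε / 2 := by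
        rw [ContinuousMap.dist_le (by positivity)]
        intro x
        rw [Real.dist_eq, hf1 N (hN₁.trans hN)]
        exact h1 N hN x
      linarith
    have hc : Continuous (fun f : C(S 3, ℝ) => l₁ * II (f * f) - II (TT R f * f)) := by
      have h1 : Continuous (fun f : C(S 3, ℝ) => II (f * f)) :=
        II_cont.comp (continuous_id.mul continuous_id)
      have h2 : Continuous (fun f : C(S 3, ℝ) => II (TT R f * f)) :=
        II_cont.comp ((TT_cont R).mul continuous_id)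
      exact (continuous_const.mul h1).sub h2
    have hl := (hc.tendsto ψ).comp hlim
    have h0 : 0 ≤ l₁ * II (ψ * ψ) - II (TT R ψ * ψ) := by
      refine ge_of_tendsto hl ?_
      filter_upwards [Filter.eventually_ge_atTop 1] with N hN
      have := hf2 N hN
      simp only [Function.comp]
      linarith
    linarith
  -- conclusion
  refine ⟨R, hR, 2 * (6 - l₁), by linarith, ?_⟩
  intro ψ
  set c := II ψ with hcdef
  set ψ₀ := ψ - ContinuousMap.const _ c with hψ₀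
  have hψ0 : II ψ₀ = 0 := by
    rw [hψ₀, map_sub, II_const, hcdef, sub_self]
  have h1 := hzero ψ₀ hψ0
  have h2 := key_id R ψ₀
  have h3 : II (ψ₀ * ψ₀) = II (ψ * ψ) - c ^ 2 := by
    have e : ψ₀ * ψ₀ = ψ * ψ - (2 * c) • ψ + ContinuousMap.const _ (c ^ 2) := by
      ext x
      show (ψ x - c) * (ψ x - c) = ψ x * ψ x - (2 * c) * ψ x + c ^ 2
      ring
    rw [e, map_add, map_sub, map_smul, II_const, smul_eq_mul, ← hcdef]
    ring
  have h4 : ∀ a : Fin 6, II ((cr (R (ua a)) ψ₀ - ψ₀) * (cr (R (ua a)) ψ₀ - ψ₀)) =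
      ∫ x, (ψ (rot (R (ua a)) x) - ψ x) ^ 2 ∂(sg 3) := by
    intro a
    rw [II_apply]
    refine integral_congr_ae (Filter.Eventually.of_forall (fun x => ?_))
    show ((ψ (rot (R (ua a)) x) - c) - (ψ x - c)) * ((ψ (rot (R (ua a)) x) - c) - (ψ x - c)) =
      (ψ (rot (R (ua a)) x) - ψ x) ^ 2
    ring
  have h5 : ∫ x, ψ x ^ 2 ∂(sg 3) = II (ψ * ψ) := by
    rw [II_apply]
    refine integral_congr_ae (Filter.Eventually.of_forall (fun x => ?_))
    show ψ x ^ 2 = ψ x * ψ x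
    ring
  have h6 : ∫ x, ψ x ∂(sg 3) = c := rfl
  rw [h5, h6, ← Finset.sum_congr rfl (fun a _ => h4 a), h2, ← h3]
  nlinarith [h1]


theorem gap3s : SGs 3 := by
  obtain ⟨R, -, κ, h⟩ := gap3
  refine ⟨6, fun a => R (ua a), κ, h, fun a => ?_⟩
  obtain ⟨p, hp⟩ := ua_sq a
  exact ⟨R p, by rw [← map_mul, hp]⟩

theorem gap_of_gap3 (h : SGs 3) (d : ℕ) (hd : 3 ≤ d) : SGs d := by
  classical
  obtain ⟨k, g, κ, hg, hsq⟩ := h
  have hκ : 0 < κ := hg.1
  have hd1 : 1 ≤ d := by omega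
  choose B hB using exists_blk d
  obtain ⟨K, hK⟩ := bounded_gen d hd B hB
  let T := (Fin 3 ↪ Fin d) × Fin k
  let eqv : T ≃ Fin (Fintype.card T) := Fintype.equivFin T
  have hC : (0 : ℝ) < 4 ^ K * (4 / κ) := by positivity
  refine ⟨Fintype.card T, fun j => B (eqv.symm j).1 (g (eqv.symm j).2), 2 / (4 ^ K * (4 / κ)),
    ⟨by positivity, fun ψ => ?_⟩, fun j => by
      obtain ⟨h, hh⟩ := hsq (eqv.symm j).2
      exact ⟨B (eqv.symm j).1 h, by
        show B (eqv.symm j).1 (g (eqv.symm j).2) = _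
        rw [hh, map_mul]⟩⟩
  have hR : ∑ j, ∫ x, (ψ (rot (B (eqv.symm j).1 (g (eqv.symm j).2)) x) - ψ x) ^ 2 ∂(sg d) =
      ∑ e : Fin 3 ↪ Fin d, ∑ i, ∫ x, (ψ (rot (B e (g i)) x) - ψ x) ^ 2 ∂(sg d) := by
    rw [eqv.symm.sum_comp (fun p : T => ∫ x, (ψ (rot (B p.1 (g p.2)) x) - ψ x) ^ 2 ∂(sg d)),
      Fintype.sum_prod_type]
  rw [hR]
  set R := ∑ e : Fin 3 ↪ Fin d, ∑ i, ∫ x, (ψ (rot (B e (g i)) x) - ψ x) ^ 2 ∂(sg d) with hRdef
  have hnn : ∀ e : Fin 3 ↪ Fin d,
      0 ≤ ∑ i, ∫ x, (ψ (rot (B e (g i)) x) - ψ x) ^ 2 ∂(sg d) := fun e =>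
    Finset.sum_nonneg fun i _ => integral_nonneg fun x => sq_nonneg _
  have hR0 : 0 ≤ R := Finset.sum_nonneg fun e _ => hnn e
  have hM0 : 0 ≤ (4 / κ) * R := by positivity
  have hone : ∀ (e : Fin 3 ↪ Fin d) (h : Iso 3),
      ∫ x, (ψ (rot (B e h) x) - ψ x) ^ 2 ∂(sg d) ≤ (4 / κ) * R := by
    intro e h
    refine (slice_gap d hd k g κ hg e (B e) (hB e) ψ h).trans ?_
    refine mul_le_mul_of_nonneg_left ?_ (by positivity)
    exact Finset.single_le_sum (f := fun e => ∑ i, ∫ x, (ψ (rot (B e (g i)) x) - ψ x) ^ 2 ∂(sg d))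
      (fun e _ => hnn e) (Finset.mem_univ e)
  have hlist : ∀ L : List ((Fin 3 ↪ Fin d) × Iso 3),
      ∫ x, (ψ (rot ((L.map (fun p => B p.1 p.2)).prod) x) - ψ x) ^ 2 ∂(sg d) ≤
        4 ^ L.length * ((4 / κ) * R) := by
    intro L
    induction L with
    | nil =>
      simp only [List.map_nil, List.prod_nil, rot_one, sub_self, ne_eq, OfNat.ofNat_ne_zero,
        not_false_eq_true, zero_pow, integral_zero, List.length_nil, pow_zero, one_mul]
      exact hM0
    | cons p L ih =>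
      rw [List.map_cons, List.prod_cons, List.length_cons, pow_succ]
      refine (gapd_mul d hd1 ψ _ _).trans ?_
      have h1 := hone p.1 p.2
      have h2 : (1 : ℝ) ≤ 4 ^ L.length := one_le_pow₀ (by norm_num)
      nlinarith [mul_nonneg (sub_nonneg.2 h2) hM0]
  have hall : ∀ g' : Iso d, ∫ x, (ψ (rot g' x) - ψ x) ^ 2 ∂(sg d) ≤ 4 ^ K * (4 / κ) * R := by
    intro g'
    obtain ⟨L, hL, rfl⟩ := hK g'
    refine (hlist L).trans ?_
    rw [mul_assoc]
    refine mul_le_mul_of_nonneg_right ?_ hM0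
    exact pow_le_pow_right₀ (by norm_num) hL
  have := avg_bound d hd1 ψ _ hall
  rw [div_mul_eq_mul_div, div_le_iff₀ hC]
  linarith



section coord

variable (R : ℍ[ℝ]ˣ →* Iso 3) (hR : ∀ (q : ℍ[ℝ]ˣ) (x : E 3),
    imq (R q x) = (q : ℍ[ℝ]) * imq x * ((q⁻¹ : ℍ[ℝ]ˣ) : ℍ[ℝ]))
include hR

theorem R1 (x : E 3) :
    (R (ua 1) x) 1 = x 1 ∧ (R (ua 1) x) 2 = -(3 / 5) * x 2 - 4 / 5 * x 0 ∧
      (R (ua 1) x) 0 = 4 / 5 * x 2 - 3 / 5 * x 0 := by
  have h := er_mul R hR 1 x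
  have h1 := congrArg QuaternionAlgebra.re h
  have h2 := congrArg QuaternionAlgebra.imI h
  have h3 := congrArg QuaternionAlgebra.imJ h
  have h4 := congrArg QuaternionAlgebra.imK h
  simp [imq, cz, al] at h1 h2 h3 h4
  refine ⟨?_, ?_, ?_⟩ <;> linarith

theorem R3 (x : E 3) :
    (R (ua 3) x) 0 = x 0 ∧ (R (ua 3) x) 1 = -(3 / 5) * x 1 + 4 / 5 * x 2 ∧
      (R (ua 3) x) 2 = -(4 / 5) * x 1 - 3 / 5 * x 2 := by
  have h := er_mul R hR 3 x
  have h1 := congrArg QuaternionAlgebra.re h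
  have h2 := congrArg QuaternionAlgebra.imI h
  have h3 := congrArg QuaternionAlgebra.imJ h
  have h4 := congrArg QuaternionAlgebra.imK h
  simp [imq, cz, al] at h1 h2 h3 h4
  refine ⟨?_, ?_, ?_⟩ <;> linarith

theorem R4 (x : E 3) :
    (R (ua 4) x) 1 = x 1 ∧ (R (ua 4) x) 2 = -(3 / 5) * x 2 + 4 / 5 * x 0 ∧
      (R (ua 4) x) 0 = -(4 / 5) * x 2 - 3 / 5 * x 0 := by
  have h := er_mul R hR 4 x
  have h1 := congrArg QuaternionAlgebra.re h
  have h2 := congrArg QuaternionAlgebra.imI h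
  have h3 := congrArg QuaternionAlgebra.imJ h
  have h4 := congrArg QuaternionAlgebra.imK h
  simp [imq, cz, al] at h1 h2 h3 h4
  refine ⟨?_, ?_, ?_⟩ <;> linarith

theorem R5 (x : E 3) :
    (R (ua 5) x) 2 = x 2 ∧ (R (ua 5) x) 0 = -(3 / 5) * x 0 + 4 / 5 * x 1 ∧
      (R (ua 5) x) 1 = -(4 / 5) * x 0 - 3 / 5 * x 1 := by
  have h := er_mul R hR 5 x
  have h1 := congrArg QuaternionAlgebra.re h
  have h2 := congrArg QuaternionAlgebra.imI h
  have h3 := congrArg QuaternionAlgebra.imJ h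
  have h4 := congrArg QuaternionAlgebra.imK h
  simp [imq, cz, al] at h1 h2 h3 h4
  refine ⟨?_, ?_, ?_⟩ <;> linarith

theorem inv03 (x : E 3) : R (ua 0) (R (ua 3) x) = x ∧ R (ua 3) (R (ua 0) x) = x := by
  constructor
  · obtain ⟨a1, a2, a3⟩ := er_R0 R hR (R (ua 3) x)
    obtain ⟨b1, b2, b3⟩ := R3 R hR x
    apply er_ext <;> linarith
  · obtain ⟨a1, a2, a3⟩ := R3 R hR (R (ua 0) x)
    obtain ⟨b1, b2, b3⟩ := er_R0 R hR x
    apply er_ext <;> linarith

theorem inv14 (x : E 3) : R (ua 1) (R (ua 4) x) = x ∧ R (ua 4) (R (ua 1) x) = x := by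
  constructor
  · obtain ⟨a1, a2, a3⟩ := R1 R hR (R (ua 4) x)
    obtain ⟨b1, b2, b3⟩ := R4 R hR x
    apply er_ext <;> linarith
  · obtain ⟨a1, a2, a3⟩ := R4 R hR (R (ua 1) x)
    obtain ⟨b1, b2, b3⟩ := R1 R hR x
    apply er_ext <;> linarith

theorem inv25 (x : E 3) : R (ua 2) (R (ua 5) x) = x ∧ R (ua 5) (R (ua 2) x) = x := by
  constructor
  · obtain ⟨a1, a2, a3⟩ := er_R2 R hR (R (ua 5) x)
    obtain ⟨b1, b2, b3⟩ := R5 R hR x
    apply er_ext <;> linarith
  · obtain ⟨a1, a2, a3⟩ := R5 R hR (R (ua 2) x)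
    obtain ⟨b1, b2, b3⟩ := er_R2 R hR x
    apply er_ext <;> linarith

end coord

end Pool.Agent.Y779.RZ
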