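import Pool.Agent.Y779.RZ.Fl
import Pool.Agent.Helper557.Rz.M_meas
import Pool.Agent.Helper557.Rz.M_hb
import Pool.Agent.Helper557.Rz.M_movgap
import Mathlib.Dynamics.Ergodic.RadonNikodym

/-!
# Uniqueness for finite families with a spectral gap
-/

set_option autoImplicit false

open MeasureTheory Set
open Pool.Agent.Helper557.Rz hiding fa_flow glue

namespace Pool.Agent.Y779.RZ

/-- the spectral gap for almost invariant sets -/
theorem gap_set (d k : ℕ) (hd : 1 ≤ d) (g : Fin k → Iso d) (κ : ℝ) (hg : SGD d k g κ)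
    (B : Set (S d)) (hB : MeasurableSet B) (hinv : ∀ i, rot (g i) ⁻¹' B =ᵐ[sg d] B) :
    sg d B = 0 ∨ sg d Bᶜ = 0 := by
  classical
  have hprob := sg_prob d hd
  obtain ⟨hκ, hgap⟩ := hg
  set b : ℝ := (sg d).real B with hb
  have hb0 : 0 ≤ b := measureReal_nonneg
  have hb1 : b ≤ 1 := measureReal_le_one
  have key : ∀ ε : ℝ, 0 < ε → ε < 1 → κ * ((b - ε) - (b + ε) ^ 2) ≤ 2 * k * ε := by
    intro ε hε hε1
    obtain ⟨F, hFB, hFc, hF⟩ := hB.exists_isClosed_sdiff_lt (μ := sg d) (measure_ne_top _ _)
      (ε := ENNReal.ofReal (ε / 2)) (by simpa using hε)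
    obtain ⟨U, hBU, hUo, hUt, hU⟩ := hB.exists_isOpen_sdiff_lt (μ := sg d) (measure_ne_top _ _)
      (ε := ENNReal.ofReal (ε / 2)) (by simpa using hε)
    have hD : MeasurableSet (U \ F) := hUo.measurableSet.diff hFc.measurableSet
    have hUF : (sg d).real (U \ F) ≤ ε := by
      have h1 : U \ F ⊆ (U \ B) ∪ (B \ F) := by
        intro x hx
        by_cases h : x ∈ B
        · exact Or.inr ⟨h, hx.2⟩
        · exact Or.inl ⟨hx.1, h⟩
      have h2 : sg d (U \ F) ≤ ENNReal.ofReal (ε / 2) + ENNReal.ofReal (ε / 2) :=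
        (measure_mono h1).trans ((measure_union_le _ _).trans (add_le_add hU.le hF.le))
      rw [← ENNReal.ofReal_add (by positivity) (by positivity), add_halves] at h2
      exact ENNReal.toReal_le_of_le_ofReal hε.le h2
    obtain ⟨ψ, h0, h1, h01⟩ := exists_continuous_zero_one_of_isClosed
      (s := Uᶜ) (t := F) hUo.isClosed_compl hFc
      (Set.disjoint_left.2 fun x hx hx' => hx (hBU (hFB hx')))
    have hψ0 : ∀ x, 0 ≤ ψ x := fun x => (h01 x).1
    have hψ1 : ∀ x, ψ x ≤ 1 := fun x => (h01 x).2
    have hdiff : ∀ x, |ψ x - B.indicator (fun _ => (1 : ℝ)) x| ≤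
        (U \ F).indicator (fun _ => (1 : ℝ)) x := by
      intro x
      by_cases hx : x ∈ U \ F
      · rw [indicator_of_mem hx]
        have a1 := hψ0 x
        have a2 := hψ1 x
        by_cases hxB : x ∈ B
        · rw [indicator_of_mem hxB, abs_le]; constructor <;> linarith
        · rw [indicator_of_notMem hxB, abs_le]; constructor <;> linarith
      · rw [indicator_of_notMem hx]
        by_cases hxU : x ∈ U
        · have hxF : x ∈ F := by
            by_contra h
            exact hx ⟨hxU, h⟩
          rw [indicator_of_mem (hFB hxF), h1 hxF]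
          simp
        · have hxB : x ∉ B := fun h => hxU (hBU h)
          rw [indicator_of_notMem hxB, h0 (show x ∈ Uᶜ from hxU)]
          simp
    have hψi : Integrable (fun x => ψ x) (sg d) :=
      ψ.continuous.integrable_of_hasCompactSupport (HasCompactSupport.of_compactSpace _)
    have hψ2i : Integrable (fun x => ψ x ^ 2) (sg d) :=
      (ψ.continuous.pow 2).integrable_of_hasCompactSupport (HasCompactSupport.of_compactSpace _)
    have hBi : Integrable (B.indicator (fun _ => (1 : ℝ))) (sg d) :=
      (integrable_const 1).indicator hB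
    have hDi : Integrable ((U \ F).indicator (fun _ => (1 : ℝ))) (sg d) :=
      (integrable_const 1).indicator hD
    have hBint : ∫ x, B.indicator (fun _ => (1 : ℝ)) x ∂(sg d) = b := by
      rw [integral_indicator_const _ hB, smul_eq_mul, mul_one]
    have hDint : ∫ x, (U \ F).indicator (fun _ => (1 : ℝ)) x ∂(sg d) ≤ ε := by
      rw [integral_indicator_const _ hD, smul_eq_mul, mul_one]
      exact hUF
    have e1 : ∫ x, ψ x ∂(sg d) ≤ b + ε := by
      calc ∫ x, ψ x ∂(sg d) ≤ ∫ x, (B.indicator (fun _ => (1 : ℝ)) x +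
            (U \ F).indicator (fun _ => (1 : ℝ)) x) ∂(sg d) := by
            refine integral_mono hψi (hBi.add hDi) fun x => ?_
            have := (abs_le.1 (hdiff x)).2
            show ψ x ≤ _
            linarith
        _ = b + ∫ x, (U \ F).indicator (fun _ => (1 : ℝ)) x ∂(sg d) := by
            rw [integral_add hBi hDi, hBint]
        _ ≤ b + ε := by linarith
    have e0 : 0 ≤ ∫ x, ψ x ∂(sg d) := integral_nonneg hψ0
    have e2 : b - ε ≤ ∫ x, ψ x ^ 2 ∂(sg d) := by
      have : b - ∫ x, (U \ F).indicator (fun _ => (1 : ℝ)) x ∂(sg d) ≤ ∫ x, ψ x ^ 2 ∂(sg d) := by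
        rw [← hBint, ← integral_sub hBi hDi]
        refine integral_mono (hBi.sub hDi) hψ2i fun x => ?_
        show B.indicator (fun _ => (1 : ℝ)) x - (U \ F).indicator (fun _ => (1 : ℝ)) x ≤ ψ x ^ 2
        by_cases hx : x ∈ U \ F
        · rw [indicator_of_mem hx]
          have : B.indicator (fun _ => (1 : ℝ)) x ≤ 1 := indicator_le_self' (fun _ _ => zero_le_one) x
          nlinarith [sq_nonneg (ψ x)]
        · have h3 := hdiff x
          rw [indicator_of_notMem hx] at h3 ⊢
          have h4 : ψ x = B.indicator (fun _ => (1 : ℝ)) x := by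
            have := abs_nonpos_iff.1 h3
            linarith
          rw [h4, sub_zero]
          by_cases hxB : x ∈ B
          · rw [indicator_of_mem hxB]; norm_num
          · rw [indicator_of_notMem hxB]; norm_num
      linarith
    have e3 : ∀ i, ∫ x, (ψ (rot (g i) x) - ψ x) ^ 2 ∂(sg d) ≤ 2 * ε := by
      intro i
      have hmp := rot_mp d hd (g i)
      have hc : Continuous fun x => (ψ (rot (g i) x) - ψ x) ^ 2 := by
        have := rot_continuous (g i)
        fun_prop
      have hDr : Integrable (fun x => (U \ F).indicator (fun _ => (1 : ℝ)) (rot (g i) x)) (sg d) :=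
        hmp.integrable_comp_of_integrable hDi
      have hDre : ∫ x, (U \ F).indicator (fun _ => (1 : ℝ)) (rot (g i) x) ∂(sg d) =
          ∫ x, (U \ F).indicator (fun _ => (1 : ℝ)) x ∂(sg d) := by
        conv_rhs => rw [← hmp.map_eq]
        rw [integral_map hmp.measurable.aemeasurable]
        rw [hmp.map_eq]
        exact hDi.aestronglyMeasurable
      calc ∫ x, (ψ (rot (g i) x) - ψ x) ^ 2 ∂(sg d)
          ≤ ∫ x, ((U \ F).indicator (fun _ => (1 : ℝ)) (rot (g i) x) +
            (U \ F).indicator (fun _ => (1 : ℝ)) x) ∂(sg d) := by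
            refine integral_mono_ae
              (hc.integrable_of_hasCompactSupport (HasCompactSupport.of_compactSpace _))
              (hDr.add hDi) ?_
            filter_upwards [hinv i] with x hx
            have hx' : B.indicator (fun _ => (1 : ℝ)) (rot (g i) x) =
                B.indicator (fun _ => (1 : ℝ)) x := by
              by_cases hxB : x ∈ B
              · have : rot (g i) x ∈ B := by
                  have h5 : (rot (g i) ⁻¹' B) x = B x := hx
                  have : x ∈ rot (g i) ⁻¹' B := by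
                    show (rot (g i) ⁻¹' B) x
                    rw [h5]; exact hxB
                  exact this
                rw [indicator_of_mem hxB, indicator_of_mem this]
              · have : rot (g i) x ∉ B := by
                  have h5 : (rot (g i) ⁻¹' B) x = B x := hx
                  intro h6
                  apply hxB
                  show B x
                  rw [← h5]
                  exact h6
                rw [indicator_of_notMem hxB, indicator_of_notMem this]
            have a1 := hdiff (rot (g i) x)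
            have a2 := hdiff x
            have a3 := hψ0 (rot (g i) x)
            have a4 := hψ1 (rot (g i) x)
            have a5 := hψ0 x
            have a6 := hψ1 x
            rw [hx'] at a1
            have a7 : |ψ (rot (g i) x) - ψ x| ≤ (U \ F).indicator (fun _ => (1 : ℝ)) (rot (g i) x) +
                (U \ F).indicator (fun _ => (1 : ℝ)) x := by
              have := abs_sub_le (ψ (rot (g i) x)) (B.indicator (fun _ => (1 : ℝ)) x) (ψ x)
              rw [abs_sub_comm (B.indicator (fun _ => (1 : ℝ)) x) (ψ x)] at this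
              linarith
            have a8 : |ψ (rot (g i) x) - ψ x| ≤ 1 := by
              rw [abs_le]; constructor <;> linarith
            calc (ψ (rot (g i) x) - ψ x) ^ 2 = |ψ (rot (g i) x) - ψ x| * |ψ (rot (g i) x) - ψ x| := by
                  rw [← sq_abs, sq]
              _ ≤ 1 * |ψ (rot (g i) x) - ψ x| := mul_le_mul_of_nonneg_right a8 (abs_nonneg _)
              _ ≤ _ := by rw [one_mul]; exact a7
        _ = 2 * ∫ x, (U \ F).indicator (fun _ => (1 : ℝ)) x ∂(sg d) := by
            rw [integral_add hDr hDi, hDre]; ring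
        _ ≤ 2 * ε := by linarith
    have e4 := hgap ψ
    have e5 : ∑ i, ∫ x, (ψ (rot (g i) x) - ψ x) ^ 2 ∂(sg d) ≤ 2 * k * ε := by
      calc _ ≤ ∑ _i : Fin k, 2 * ε := Finset.sum_le_sum fun i _ => e3 i
        _ = 2 * k * ε := by
          rw [Finset.sum_const, Finset.card_univ, Fintype.card_fin, nsmul_eq_mul]; ring
    have e6 : (b - ε) - (b + ε) ^ 2 ≤ ∫ x, ψ x ^ 2 ∂(sg d) - (∫ x, ψ x ∂(sg d)) ^ 2 := by
      have : (∫ x, ψ x ∂(sg d)) ^ 2 ≤ (b + ε) ^ 2 := pow_le_pow_left₀ e0 e1 2
      linarith
    have e7 := mul_le_mul_of_nonneg_left e6 hκ.le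
    linarith
  have hlim : κ * (b - b ^ 2) ≤ 0 := by
    have h1 : Filter.Tendsto (fun ε : ℝ => κ * ((b - ε) - (b + ε) ^ 2)) (nhdsWithin 0 (Ioi 0))
        (nhds (κ * ((b - 0) - (b + 0) ^ 2))) := by
      refine (Continuous.tendsto ?_ 0).mono_left nhdsWithin_le_nhds
      fun_prop
    have h2 : Filter.Tendsto (fun ε : ℝ => 2 * k * ε) (nhdsWithin 0 (Ioi 0))
        (nhds (2 * k * 0)) := by
      refine (Continuous.tendsto ?_ 0).mono_left nhdsWithin_le_nhds
      fun_prop
    have h3 := le_of_tendsto_of_tendsto h1 h2 ?_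
    · simpa using h3
    · filter_upwards [Ioo_mem_nhdsGT (show (0 : ℝ) < 1 by norm_num)] with ε hε
      exact key ε hε.1 hε.2
  have hb2 : b * (1 - b) ≤ 0 := by
    have : b - b ^ 2 ≤ 0 := by
      by_contra h
      push Not at h
      nlinarith [mul_pos hκ h]
    nlinarith
  rcases eq_or_lt_of_le hb0 with h | h
  · left
    exact (measureReal_eq_zero_iff).1 h.symm
  · right
    have : b = 1 := by nlinarith
    rw [prob_compl_eq_zero_iff hB]
    have h3 : (sg d B).toReal = 1 := this
    rw [← ENNReal.ofReal_toReal (measure_ne_top (sg d) B), h3, ENNReal.ofReal_one]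

/-- An absolutely continuous invariant probability measure is the surface measure. -/
theorem uniq (d k : ℕ) (hd : 1 ≤ d) (g : Fin k → Iso d) (κ : ℝ) (hg : SGD d k g κ)
    (ν : Measure (S d)) [IsProbabilityMeasure ν] (hac : ν ≪ sg d)
    (hν : ∀ i, ν.map (rot (g i)) = ν) : ν = sg d := by
  have hprob := sg_prob d hd
  have hrot : ∀ i, Measurable (rot (g i)) := fun i => (rot_continuous (g i)).measurable
  have hcomp : ∀ i, ν.rnDeriv (sg d) ∘ rot (g i) =ᵐ[sg d] ν.rnDeriv (sg d) := by
    intro i
    have h1 : MeasurePreserving (rot (g i)) (sg d) (sg d) := rot_mp d hd (g i)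
    have h2 : MeasurePreserving (rot (g i)) ν ν := ⟨hrot i, hν i⟩
    exact h2.rnDeriv_comp_aeEq h1
  obtain ⟨c, hc⟩ := Filter.exists_eventuallyEq_const_of_forall_separating
    (l := ae (sg d)) (f := ν.rnDeriv (sg d)) MeasurableSet (fun s hs => by
      have hB : MeasurableSet (ν.rnDeriv (sg d) ⁻¹' s) := (Measure.measurable_rnDeriv ν (sg d)) hs
      rcases gap_set d k hd g κ hg _ hB (fun i => by
        filter_upwards [hcomp i] with x hx
        show (ν.rnDeriv (sg d) ⁻¹' s) (rot (g i) x) = (ν.rnDeriv (sg d) ⁻¹' s) x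
        have hx' : ν.rnDeriv (sg d) (rot (g i) x) = ν.rnDeriv (sg d) x := hx
        show (ν.rnDeriv (sg d) (rot (g i) x) ∈ s) = (ν.rnDeriv (sg d) x ∈ s)
        rw [hx']) with h | h
      · right
        exact measure_eq_zero_iff_ae_notMem.1 h
      · left
        have := measure_eq_zero_iff_ae_notMem.1 h
        filter_upwards [this] with x hx
        by_contra h5
        exact hx h5)
  haveI hld : ν.HaveLebesgueDecomposition (sg d) :=
    Measure.haveLebesgueDecomposition_of_sigmaFinite ν (sg d)
  have h1 : (sg d).withDensity (ν.rnDeriv (sg d)) = ν := Measure.withDensity_rnDeriv_eq ν (sg d) hac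
  have h2 : ν = c • sg d := by
    rw [← h1, withDensity_congr_ae hc]
    exact withDensity_const c
  have h3 : c = 1 := by
    have h4 : ν univ = 1 := measure_univ
    rw [h2, Measure.smul_apply, measure_univ, smul_eq_mul, mul_one] at h4
    exact h4
  rw [h2, h3, one_smul]

/-- Small open sets have small measure: then the measure is countably additive and absolutely
continuous, so the spectral gap applies. -/
theorem eq_of_small (d k : ℕ) (hd : 1 ≤ d) (g : Fin k → Iso d) (κ : ℝ) (hg : SGD d k g κ)
    (m : Set (S d) → ℝ) (hm : IsFAg d k g m)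
    (h : ∀ ε : ℝ, 0 < ε → ∃ η : ℝ, 0 < η ∧ ∀ U : Set (S d), IsOpen U →
      sg d U ≤ ENNReal.ofReal η → m U ≤ ε) (A : Set (S d)) (hA : MeasurableSet A) :
    m A = (sg d A).toReal := by
  have hprob := sg_prob d hd
  have hm0 : m ∅ = 0 := by
    have := hm.add ∅ ∅ MeasurableSet.empty MeasurableSet.empty (by simp)
    rw [union_empty] at this
    linarith
  have hmono : ∀ A B : Set (S d), MeasurableSet A → MeasurableSet B → A ⊆ B → m A ≤ m B := by
    intro A B hA hB hAB
    have h1 := hm.add A (B \ A) hA (hB.diff hA) disjoint_sdiff_right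
    rw [union_diff_cancel hAB] at h1
    have h2 := hm.nonneg (B \ A) (hB.diff hA)
    linarith
  have hsmall : ∀ ε : ℝ, 0 < ε → ∃ η : ℝ, 0 < η ∧ ∀ B : Set (S d), MeasurableSet B →
      sg d B < ENNReal.ofReal η → m B ≤ ε := by
    intro ε hε
    obtain ⟨η, hη, hU⟩ := h ε hε
    refine ⟨η, hη, fun B hB hlt => ?_⟩
    obtain ⟨U, hBU, hUo, hUlt⟩ := B.exists_isOpen_lt_of_lt _ hlt
    exact (hmono B U hB hUo.measurableSet hBU).trans (hU U hUo hUlt.le)
  have hcnt : ∀ f : ℕ → Set (S d), (∀ i, MeasurableSet (f i)) →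
      Pairwise (Function.onFun Disjoint f) → HasSum (fun i => m (f i)) (m (⋃ i, f i)) := by
    intro f hf hdis
    set P : ℕ → Set (S d) := fun N => ⋃ i ∈ Finset.range N, f i with hP
    have hPm : ∀ N, MeasurableSet (P N) := fun N =>
      Finset.measurableSet_biUnion _ fun i _ => hf i
    have hUm : MeasurableSet (⋃ i, f i) := MeasurableSet.iUnion hf
    have hPs : ∀ N, P (N + 1) = P N ∪ f N := by
      intro N
      simp only [hP]
      rw [Finset.range_add_one, Finset.set_biUnion_insert, union_comm]
    have hsum : ∀ N, m (P N) = ∑ i ∈ Finset.range N, m (f i) := by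
      intro N
      induction N with
      | zero => simp [hP, hm0]
      | succ N ih =>
        rw [hPs, hm.add _ _ (hPm N) (hf N), ih, Finset.sum_range_succ]
        simp only [hP]
        rw [Set.disjoint_left]
        intro x hx hxN
        simp only [mem_iUnion, Finset.mem_range] at hx
        obtain ⟨i, hi, hxi⟩ := hx
        exact Set.disjoint_left.1 (hdis hi.ne) hxi hxN
    have hPU : ∀ N, P N ⊆ ⋃ i, f i := fun N => iUnion₂_subset fun i _ => subset_iUnion f i
    set B : ℕ → Set (S d) := fun N => (⋃ i, f i) \ P N with hB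
    have hBm : ∀ N, MeasurableSet (B N) := fun N => hUm.diff (hPm N)
    have hsplit : ∀ N, m (⋃ i, f i) = m (P N) + m (B N) := by
      intro N
      rw [← hm.add _ _ (hPm N) (hBm N) disjoint_sdiff_right, union_diff_cancel (hPU N)]
    have hanti : Antitone B := by
      intro N M hNM
      refine diff_subset_diff_right ?_
      exact iUnion₂_subset fun i hi => subset_iUnion₂ (s := fun i (_ : i ∈ Finset.range M) => f i) i
        (Finset.mem_range.2 ((Finset.mem_range.1 hi).trans_le hNM))
    have hinter : ⋂ N, B N = ∅ := by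
      rw [Set.eq_empty_iff_forall_notMem]
      intro x hx
      have h0 := mem_iInter.1 hx 0
      obtain ⟨i, hi⟩ := mem_iUnion.1 h0.1
      exact (mem_iInter.1 hx (i + 1)).2 (mem_iUnion₂.2 ⟨i, Finset.mem_range.2 (Nat.lt_succ_self i), hi⟩)
    have hlim : Filter.Tendsto (fun N => sg d (B N)) Filter.atTop (nhds 0) := by
      have := tendsto_measure_iInter_atTop (μ := sg d) (s := B)
        (fun N => (hBm N).nullMeasurableSet) hanti ⟨0, measure_ne_top _ _⟩
      rw [hinter, measure_empty] at this
      exact this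
    have hmB : Filter.Tendsto (fun N => m (B N)) Filter.atTop (nhds 0) := by
      rw [Metric.tendsto_atTop]
      intro ε hε
      obtain ⟨η, hη, hs⟩ := hsmall (ε / 2) (by positivity)
      have hev := hlim.eventually_lt_const (ENNReal.ofReal_pos.2 hη)
      obtain ⟨N0, hN0⟩ := Filter.eventually_atTop.1 hev
      refine ⟨N0, fun N hN => ?_⟩
      have h1 := hs (B N) (hBm N) (hN0 N hN)
      have h2 := hm.nonneg (B N) (hBm N)
      rw [Real.dist_eq, sub_zero, abs_of_nonneg h2]
      linarith
    rw [hasSum_iff_tendsto_nat_of_nonneg (fun i => hm.nonneg _ (hf i))]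
    have h3 : (fun N => ∑ i ∈ Finset.range N, m (f i)) = fun N => m (⋃ i, f i) - m (B N) := by
      funext N
      rw [← hsum, hsplit N]
      ring
    rw [h3]
    simpa using (tendsto_const_nhds (x := m (⋃ i, f i))).sub hmB
  set ν : Measure (S d) := Measure.ofMeasurable (fun A _ => ENNReal.ofReal (m A))
    (by simp [hm0]) (by
      intro f hf hdis
      have h1 := hcnt f hf hdis
      show ENNReal.ofReal (m (⋃ i, f i)) = ∑' i, ENNReal.ofReal (m (f i))
      rw [← h1.tsum_eq, ENNReal.ofReal_tsum_of_nonneg (fun i => hm.nonneg _ (hf i)) h1.summable])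
    with hν
  have hνa : ∀ A : Set (S d), MeasurableSet A → ν A = ENNReal.ofReal (m A) := fun A hA =>
    Measure.ofMeasurable_apply A hA
  have hνp : IsProbabilityMeasure ν := ⟨by rw [hνa _ MeasurableSet.univ, hm.univ]; simp⟩
  have hνi : ∀ i, ν.map (rot (g i)) = ν := by
    intro i
    refine Measure.ext fun A hA => ?_
    have hmeas : Measurable (rot (g i)) := (rot_continuous (g i)).measurable
    rw [Measure.map_apply hmeas hA, hνa _ (hmeas hA), hνa _ hA, hm.inv i A hA]
  have hac : ν ≪ sg d := by
    refine Measure.AbsolutelyContinuous.mk fun B hB h0 => ?_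
    rw [hνa B hB, ENNReal.ofReal_eq_zero]
    refine le_of_forall_pos_le_add fun ε hε => ?_
    obtain ⟨η, hη, hs⟩ := hsmall ε hε
    have := hs B hB (by rw [h0]; exact ENNReal.ofReal_pos.2 hη)
    linarith
  have hfin := uniq d k hd g κ hg ν hac hνi
  rw [← hfin, hνa A hA, ENNReal.toReal_ofReal (hm.nonneg A hA)]

/-- The main theorem for real valued set functions. -/
theorem main_real (d k : ℕ) (hd : 2 ≤ d) (g : Fin k → Iso d) (κ : ℝ) (hg : SGD d k g κ)
    (m : Set (S d) → ℝ) (hm : IsFAg d k g m) (A : Set (S d)) (hA : MeasurableSet A) :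
    m A = (sg d A).toReal := by
  obtain ⟨ε₀, h0, hmov⟩ := mov_of_gap d hd k g κ hg
  have hfl := flow_of_mov d (by omega) k g ε₀ h0 hmov
  exact eq_of_small d k (by omega) g κ hg m hm
    (fun ε hε => glue d (by omega) k g _ (by positivity) hfl m hm ε hε) A hA

theorem img_pre {d : ℕ} (g : Iso d) (A : Set (S d)) :
    {y : S d | ∃ x ∈ rot g ⁻¹' A, (y : E d) = g (x : E d)} = A := by
  ext y
  constructor
  · rintro ⟨x, hx, hy⟩
    have : y = rot g x := Subtype.ext hy
    rw [this]
    exact hx
  · intro hy
    refine ⟨rot g⁻¹ y, ?_, ?_⟩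
    · show rot g (rot g⁻¹ y) ∈ A
      rw [rot_rot_inv]
      exact hy
    · have := congrArg (fun z : S d => (z : E d)) (rot_rot_inv g y)
      exact this.symm

/-- The main theorem for set functions with values in `[0, ∞]`. -/
theorem main (d k : ℕ) (hd : 2 ≤ d) (g : Fin k → Iso d) (κ : ℝ) (hg : SGD d k g κ)
    (μ : Set (S d) → ENNReal) (h0 : μ ∅ = 0)
    (hadd : ∀ A B : Set (S d), MeasurableSet A → MeasurableSet B → Disjoint A B →
      μ (A ∪ B) = μ A + μ B)
    (hinv : ∀ (i : Fin k) (A : Set (S d)), MeasurableSet A →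
      μ {y : S d | ∃ x ∈ A, (y : E d) = g i (x : E d)} = μ A)
    (h1 : μ Set.univ = 1) (A : Set (S d)) (hA : MeasurableSet A) :
    μ A = (volume : Measure (E d)).toSphere A / (volume : Measure (E d)).toSphere Set.univ := by
  have hp := sg_prob d (by omega)
  have hsg : sg d A =
      (volume : Measure (E d)).toSphere A / (volume : Measure (E d)).toSphere Set.univ := by
    rw [sg, Measure.smul_apply, smul_eq_mul, ENNReal.div_eq_inv_mul]
  have hle : ∀ B : Set (S d), MeasurableSet B → μ B ≤ 1 := by
    intro B hB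
    have := hadd B Bᶜ hB hB.compl disjoint_compl_right
    rw [Set.union_compl_self, h1] at this
    rw [this]
    exact le_self_add
  have hfin : ∀ B : Set (S d), MeasurableSet B → μ B ≠ ⊤ := fun B hB =>
    ne_top_of_le_ne_top ENNReal.one_ne_top (hle B hB)
  have hm : IsFAg d k g (fun B => (μ B).toReal) := by
    refine ⟨fun B _ => ENNReal.toReal_nonneg, ?_, ?_, ?_⟩
    · intro B C hB hC hBC
      rw [hadd B C hB hC hBC, ENNReal.toReal_add (hfin B hB) (hfin C hC)]
    · simp [h1]
    · intro i B hB
      have hmeas : MeasurableSet (rot (g i) ⁻¹' B) := (rot_continuous (g i)).measurable hB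
      have := hinv i (rot (g i) ⁻¹' B) hmeas
      rw [img_pre] at this
      show (μ (rot (g i) ⁻¹' B)).toReal = (μ B).toReal
      rw [this]
  have := main_real d k hd g κ hg _ hm A hA
  rw [← hsg]
  exact (ENNReal.toReal_eq_toReal_iff' (hfin A hA) (measure_ne_top _ _)).mp this

end Pool.Agent.Y779.RZ
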