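import Pool.Agent.Helper557.Rz.M_glue
import Pool.Agent.Helper557.Rz.M_faflow

/-!
# Finitely additive Borel measures invariant under finitely many rotations: flows

The arguments of `Helper557.Rz.M_faflow` and `Helper557.Rz.M_glue` for finitely additive measures
which are only invariant under the given finite family.
-/

set_option autoImplicit false

open MeasureTheory Set
open Pool.Agent.Helper557.Rz hiding fa_flow glue

namespace Pool.Agent.Y779.RZ

/-- finitely additive probabilities on the Borel sets of the sphere, invariant under the family -/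
structure IsFAg (d k : ℕ) (g : Fin k → Iso d) (m : Set (S d) → ℝ) : Prop where
  nonneg : ∀ A, MeasurableSet A → 0 ≤ m A
  add : ∀ A B, MeasurableSet A → MeasurableSet B → Disjoint A B → m (A ∪ B) = m A + m B
  univ : m univ = 1
  inv : ∀ (i : Fin k) (A : Set (S d)), MeasurableSet A → m (rot (g i) ⁻¹' A) = m A

theorem fa_flow (d k : ℕ) (g : Fin k → Iso d) (m : Set (S d) → ℝ) (hm : IsFAg d k g m)
    (U : Set (S d)) (hU : MeasurableSet U) (F : Fin k → S d → ℝ) (hF : ∀ i, Measurable (F i))
    (C : ℝ) (hC : ∀ i x, |F i x| ≤ C) (ε : ℝ)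
    (h : ∀ x, ∑ i, (F i (rot (g i) x) - F i x) ≤ ε - U.indicator (fun _ => (1 : ℝ)) x) :
    m U ≤ ε := by
  -- main estimate
  have main : ∀ N : ℕ, (N : ℝ) * (m U - ε) ≤ k := by
    intro N
    set M : ℕ := ⌊2 * C * N⌋₊ + 1 with hM
    set n : Fin k → S d → ℕ := fun i x => ⌊(N : ℝ) * (F i x + C)⌋₊ with hn
    have hpos : ∀ i x, 0 ≤ (N : ℝ) * (F i x + C) := by
      intro i x
      have := (abs_le.1 (hC i x)).1
      exact mul_nonneg (Nat.cast_nonneg _) (by linarith)
    have hnM : ∀ i x, n i x ≤ M := by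
      intro i x
      have h1 := (abs_le.1 (hC i x)).2
      have h2 : (N : ℝ) * (F i x + C) ≤ 2 * C * N := by
        have : (0 : ℝ) ≤ N := Nat.cast_nonneg _
        nlinarith
      exact (Nat.floor_le_floor h2).trans (Nat.le_succ _)
    have hnmeas : ∀ i, Measurable (n i) := fun i =>
      Nat.measurable_floor.comp (measurable_const.mul ((hF i).add_const C))
    set B : Fin k → Fin M → Set (S d) := fun i v => {x | (v : ℕ) + 1 ≤ n i x} with hB
    have hBm : ∀ i v, MeasurableSet (B i v) := fun i v =>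
      measurableSet_le measurable_const (hnmeas i)
    have hrot : ∀ i, Measurable (rot (g i)) := fun i => (rot_continuous (g i)).measurable
    have hBind : ∀ i x, ∑ v, (B i v).indicator (fun _ => (1 : ℝ)) x = n i x := by
      intro i x
      rw [← sum_level M (n i x) (hnM i x)]
      refine Finset.sum_congr rfl fun v _ => ?_
      by_cases hv : (v : ℕ) + 1 ≤ n i x
      · rw [Set.indicator_of_mem (show x ∈ B i v from hv), if_pos hv]
      · rw [Set.indicator_of_notMem (show x ∉ B i v from hv), if_neg hv]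
    let A : Fin 2 ⊕ (Fin k × Fin M × Fin 2) → Set (S d) := fun j =>
      match j with
      | Sum.inl a => if a = 0 then Set.univ else U
      | Sum.inr (i, v, b) => if b = 0 then rot (g i) ⁻¹' (B i v) else B i v
    let c : Fin 2 ⊕ (Fin k × Fin M × Fin 2) → ℝ := fun j =>
      match j with
      | Sum.inl a => if a = 0 then (N * ε + k) else -(N : ℝ)
      | Sum.inr (_, _, b) => if b = 0 then -1 else 1
    have hA : ∀ j, MeasurableSet (A j) := by
      rintro (a | ⟨i, v, b⟩)
      · show MeasurableSet (if a = 0 then Set.univ else U)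
        split_ifs
        · exact MeasurableSet.univ
        · exact hU
      · show MeasurableSet (if b = 0 then rot (g i) ⁻¹' (B i v) else B i v)
        split_ifs
        · exact (hrot i) (hBm i v)
        · exact hBm i v
    have key := fa_pos m hm.nonneg hm.add A hA c ?_
    · have e : ∑ j, c j * m (A j) = (N * ε + k) * m Set.univ + -(N : ℝ) * m U := by
        rw [Fintype.sum_sum_type, Fin.sum_univ_two]
        have : ∑ p : Fin k × Fin M × Fin 2, c (Sum.inr p) * m (A (Sum.inr p)) = 0 := by
          rw [Fintype.sum_prod_type]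
          refine Finset.sum_eq_zero fun i _ => ?_
          rw [Fintype.sum_prod_type]
          refine Finset.sum_eq_zero fun v _ => ?_
          rw [Fin.sum_univ_two]
          show -1 * m (rot (g i) ⁻¹' (B i v)) + 1 * m (B i v) = 0
          rw [hm.inv i (B i v) (hBm i v)]
          ring
        rw [this, add_zero]
        rfl
      rw [e, hm.univ] at key
      nlinarith
    · intro x
      have e : ∑ j, c j * (A j).indicator (fun _ => (1 : ℝ)) x
          = (N * ε + k) * 1 + -(N : ℝ) * U.indicator (fun _ => (1 : ℝ)) x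
            - ∑ i, ((n i (rot (g i) x) : ℝ) - n i x) := by
        rw [Fintype.sum_sum_type, Fin.sum_univ_two]
        have : ∑ p : Fin k × Fin M × Fin 2,
            c (Sum.inr p) * (A (Sum.inr p)).indicator (fun _ => (1 : ℝ)) x
            = - ∑ i, ((n i (rot (g i) x) : ℝ) - n i x) := by
          rw [Fintype.sum_prod_type, ← Finset.sum_neg_distrib]
          refine Finset.sum_congr rfl fun i _ => ?_
          rw [Fintype.sum_prod_type]
          rw [← hBind i x, ← hBind i (rot (g i) x), ← Finset.sum_sub_distrib,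
            ← Finset.sum_neg_distrib]
          refine Finset.sum_congr rfl fun v _ => ?_
          rw [Fin.sum_univ_two]
          show -1 * (rot (g i) ⁻¹' (B i v)).indicator (fun _ => (1 : ℝ)) x
            + 1 * (B i v).indicator (fun _ => (1 : ℝ)) x = _
          have : (rot (g i) ⁻¹' (B i v)).indicator (fun _ => (1 : ℝ)) x
              = (B i v).indicator (fun _ => (1 : ℝ)) (rot (g i) x) := rfl
          rw [this]
          ring
        rw [this]
        show (N * ε + k) * (Set.univ : Set (S d)).indicator (fun _ => (1 : ℝ)) x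
          + -(N : ℝ) * U.indicator (fun _ => (1 : ℝ)) x + _ = _
        rw [Set.indicator_univ]
        ring
      rw [e]
      have h3 : ∑ i, ((n i (rot (g i) x) : ℝ) - n i x)
          ≤ ∑ i, ((N : ℝ) * (F i (rot (g i) x) - F i x) + 1) := by
        refine Finset.sum_le_sum fun i _ => ?_
        have h4 : ((n i (rot (g i) x) : ℕ) : ℝ) ≤ (N : ℝ) * (F i (rot (g i) x) + C) :=
          Nat.floor_le (hpos i _)
        have h5 : (N : ℝ) * (F i x + C) < (n i x : ℝ) + 1 := Nat.lt_floor_add_one _
        nlinarith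
      rw [Finset.sum_add_distrib, ← Finset.mul_sum] at h3
      have h6 : (N : ℝ) * ∑ i, (F i (rot (g i) x) - F i x)
          ≤ N * (ε - U.indicator (fun _ => (1 : ℝ)) x) :=
        mul_le_mul_of_nonneg_left (h x) (Nat.cast_nonneg _)
      simp only [Finset.sum_const, Finset.card_univ, Fintype.card_fin, nsmul_eq_mul, mul_one] at h3
      nlinarith
  by_contra hcon
  push Not at hcon
  have hpos : 0 < m U - ε := by linarith
  obtain ⟨N, hN⟩ := exists_nat_gt ((k : ℝ) / (m U - ε))
  have := main N
  rw [div_lt_iff₀ hpos] at hN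
  linarith


theorem glue (d : ℕ) (hd : 1 ≤ d) (k : ℕ) (g : Fin k → Iso d) (C : ℝ) (hC : 0 < C)
    (hf : Flow d k g C) (m : Set (S d) → ℝ) (hm : IsFAg d k g m) (ε : ℝ) (hε : 0 < ε) :
    ∃ η : ℝ, 0 < η ∧ ∀ U : Set (S d), IsOpen U → sg d U ≤ ENNReal.ofReal η → m U ≤ ε := by
  obtain ⟨N, hN1, hNs⟩ := exists_N8881 (2 * k * C) ε (by positivity) hε
  let q : ℝ := 1 + 2 * k
  have hq : 1 ≤ q := by
    show (1 : ℝ) ≤ 1 + 2 * k
    have : (0 : ℝ) ≤ k := Nat.cast_nonneg k
    linarith
  have hq0 : 0 < q := by linarith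
  let η : ℕ → ℝ := fun n => (1 / 8) / q ^ (N n)
  have hη : ∀ n, 0 < η n := fun n => by positivity
  refine ⟨η 0, hη 0, fun U hU hsU => ?_⟩
  have hprob := sg_prob d hd
  obtain ⟨P, hPc, hPm, hPU⟩ := exhaust d (sg d) U hU η hη hsU
  have hKm : ∀ n, sg d (gT8881 g (P n) (N n)) ≤ ENNReal.ofReal (1 / 8) := by
    intro n
    refine (gT_meas8881 hd g (P n) (hPc n) (N n)).trans ?_
    have e1 : ((1 + 2 * k : ℕ) : ENNReal) ^ (N n) = ENNReal.ofReal (q ^ (N n)) := by
      rw [ENNReal.ofReal_pow hq0.le]
      congr 1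
      rw [← ENNReal.ofReal_natCast]
      congr 1
      push_cast
      rfl
    calc ((1 + 2 * k : ℕ) : ENNReal) ^ (N n) * sg d (P n)
        ≤ ENNReal.ofReal (q ^ (N n)) * ENNReal.ofReal (η n) := by
          rw [e1]
          gcongr
          exact hPm n
      _ = ENNReal.ofReal (1 / 8) := by
          rw [← ENNReal.ofReal_mul (by positivity)]
          congr 1
          show q ^ N n * ((1 / 8) / q ^ N n) = 1 / 8
          field_simp
  choose f hfC hfK using fun n => hf (gT8881 g (P n) (N n)) (gT_closed8881 g (P n) (hPc n) (N n)) (hKm n)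
  let w : ℕ → S d → ℝ := fun n x => gw8881 g (P n) (N n) x
  have hw0 : ∀ x n, 0 ≤ w n x := fun x n => gw_nonneg8881 _ _ _ _
  have hw1 : ∀ x n, w n x ≤ 1 := fun x n => gw_le8881 _ _ _ (hN1 n) _
  let ρ : ℕ → S d → ℝ := fun n x => w n x * ∏ j ∈ Finset.range n, (1 - w j x)
  have hρ0 : ∀ n x, 0 ≤ ρ n x := fun n x =>
    mul_nonneg (hw0 x n) (Finset.prod_nonneg (fun j _ => sub_nonneg.2 (hw1 x j)))
  have hρs : ∀ x M, ∑ n ∈ Finset.range M, ρ n x = 1 - ∏ j ∈ Finset.range M, (1 - w j x) :=
    fun x M => rho_sum (fun n => w n x) (hw0 x) (hw1 x) M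
  have hρ1 : ∀ x M, ∑ n ∈ Finset.range M, ρ n x ≤ 1 := by
    intro x M
    rw [hρs]
    have : 0 ≤ ∏ j ∈ Finset.range M, (1 - w j x) :=
      Finset.prod_nonneg (fun j _ => sub_nonneg.2 (hw1 x j))
    linarith
  have hρsum : ∀ x, Summable (fun n => ρ n x) := fun x =>
    summable_of_sum_range_le (fun n => hρ0 n x) (hρ1 x)
  have habs : ∀ i x n, |ρ n x * f n i x| ≤ C * ρ n x := by
    intro i x n
    rw [abs_mul, abs_of_nonneg (hρ0 n x), mul_comm]
    exact mul_le_mul_of_nonneg_right (hfC n i x) (hρ0 n x)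
  have hsum : ∀ i x, Summable (fun n => ρ n x * f n i x) := fun i x =>
    Summable.of_norm_bounded ((hρsum x).mul_left C) (fun n => by
      rw [Real.norm_eq_abs]; exact habs i x n)
  let F : Fin k → S d → ℝ := fun i x => ∑' n, ρ n x * f n i x
  have htend : ∀ i x, Filter.Tendsto (fun M => ∑ n ∈ Finset.range M, ρ n x * f n i x) Filter.atTop
      (nhds (F i x)) := fun i x => (hsum i x).hasSum.tendsto_sum_nat
  have hρm : ∀ n, Measurable (ρ n) := by
    intro n
    have hwm : ∀ j, Measurable (w j) := fun j => gw_meas8881 g (P j) (hPc j) (N j)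
    refine (hwm n).mul ?_
    refine Finset.measurable_prod _ (fun j _ => ?_)
    exact measurable_const.sub (hwm j)
  have hFm : ∀ i, Measurable (F i) := by
    intro i
    refine measurable_of_tendsto_metrizable (f := fun M x => ∑ n ∈ Finset.range M, ρ n x * f n i x)
      (fun M => ?_) (tendsto_pi_nhds.2 (fun x => htend i x))
    refine Finset.measurable_sum _ (fun n _ => ?_)
    exact (hρm n).mul (f n i).continuous.measurable
  have hFC : ∀ i x, |F i x| ≤ C := by
    intro i x
    refine le_of_tendsto (htend i x).abs (Filter.Eventually.of_forall (fun M => ?_))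
    calc |∑ n ∈ Finset.range M, ρ n x * f n i x| ≤ ∑ n ∈ Finset.range M, |ρ n x * f n i x| :=
          Finset.abs_sum_le_sum_abs _ _
      _ ≤ ∑ n ∈ Finset.range M, C * ρ n x := Finset.sum_le_sum (fun n _ => habs i x n)
      _ = C * ∑ n ∈ Finset.range M, ρ n x := by rw [Finset.mul_sum]
      _ ≤ C * 1 := by gcongr; exact hρ1 x M
      _ = C := mul_one C
  refine fa_flow d k g m hm U hU.measurableSet F hFm C hFC ε (fun x => ?_)
  have hlim : Filter.Tendsto (fun M => ∑ i, ((∑ n ∈ Finset.range M, ρ n (rot (g i) x) *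
      f n i (rot (g i) x)) - ∑ n ∈ Finset.range M, ρ n x * f n i x)) Filter.atTop
      (nhds (∑ i, (F i (rot (g i) x) - F i x))) :=
    tendsto_finsetSum _ (fun i _ => (htend i (rot (g i) x)).sub (htend i x))
  -- the bound for partial sums
  have hbound : ∀ M, ∑ i, ((∑ n ∈ Finset.range M, ρ n (rot (g i) x) *
      f n i (rot (g i) x)) - ∑ n ∈ Finset.range M, ρ n x * f n i x)
      ≤ ε - ∑ n ∈ Finset.range M, ρ n x := by
    intro M
    have e1 : ∑ i, ((∑ n ∈ Finset.range M, ρ n (rot (g i) x) *
        f n i (rot (g i) x)) - ∑ n ∈ Finset.range M, ρ n x * f n i x)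
        = ∑ i, (∑ n ∈ Finset.range M, (ρ n (rot (g i) x) - ρ n x) * f n i (rot (g i) x))
          + ∑ n ∈ Finset.range M, ρ n x * ∑ i, (f n i (rot (g i) x) - f n i x) := by
      have e2 : ∑ n ∈ Finset.range M, ρ n x * ∑ i, (f n i (rot (g i) x) - f n i x)
          = ∑ i, ∑ n ∈ Finset.range M, ρ n x * (f n i (rot (g i) x) - f n i x) := by
        rw [Finset.sum_comm]
        refine Finset.sum_congr rfl (fun n _ => ?_)
        rw [Finset.mul_sum]
      rw [e2, ← Finset.sum_add_distrib]
      refine Finset.sum_congr rfl (fun i _ => ?_)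
      rw [← Finset.sum_sub_distrib, ← Finset.sum_add_distrib]
      refine Finset.sum_congr rfl (fun n _ => ?_)
      ring
    rw [e1]
    have b1 : ∀ i : Fin k, ∑ n ∈ Finset.range M, (ρ n (rot (g i) x) - ρ n x) * f n i (rot (g i) x)
        ≤ C * (2 * ∑ n ∈ Finset.range M, 1 / (N n : ℝ)) := by
      intro i
      have hrd := rho_diff (fun n => w n (rot (g i) x)) (fun n => w n x) (fun n => 1 / (N n : ℝ))
        (hw0 _) (hw1 _) (hw0 _) (hw1 _) (fun n => gw_lip8881 g (P n) (N n) (hN1 n) i x) M
      calc ∑ n ∈ Finset.range M, (ρ n (rot (g i) x) - ρ n x) * f n i (rot (g i) x)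
          ≤ ∑ n ∈ Finset.range M, C * |ρ n (rot (g i) x) - ρ n x| := by
            refine Finset.sum_le_sum (fun n _ => ?_)
            refine (le_abs_self _).trans ?_
            rw [abs_mul, mul_comm]
            exact mul_le_mul_of_nonneg_right (hfC n i _) (abs_nonneg _)
        _ = C * ∑ n ∈ Finset.range M, |ρ n (rot (g i) x) - ρ n x| := by rw [Finset.mul_sum]
        _ ≤ C * (2 * ∑ n ∈ Finset.range M, 1 / (N n : ℝ)) :=
            mul_le_mul_of_nonneg_left hrd hC.le
    have b2 : ∑ n ∈ Finset.range M, ρ n x * ∑ i, (f n i (rot (g i) x) - f n i x)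
        ≤ - ∑ n ∈ Finset.range M, ρ n x := by
      rw [← Finset.sum_neg_distrib]
      refine Finset.sum_le_sum (fun n _ => ?_)
      by_cases hz : ρ n x = 0
      · rw [hz]; simp
      · have hwn : gw8881 g (P n) (N n) x ≠ 0 := by
          intro h0
          apply hz
          show w n x * _ = 0
          rw [show w n x = 0 from h0, zero_mul]
        have hx : x ∈ gT8881 g (P n) (N n) := gw_ne8881 _ _ _ _ hwn
        have := mul_le_mul_of_nonneg_left (hfK n x hx) (hρ0 n x)
        linarith
    have b3 : ∑ i : Fin k, (∑ n ∈ Finset.range M, (ρ n (rot (g i) x) - ρ n x) * f n i (rot (g i) x))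
        ≤ ε := by
      calc _ ≤ ∑ _i : Fin k, C * (2 * ∑ n ∈ Finset.range M, 1 / (N n : ℝ)) :=
            Finset.sum_le_sum (fun i _ => b1 i)
        _ = 2 * k * C * ∑ n ∈ Finset.range M, 1 / (N n : ℝ) := by
            rw [Finset.sum_const, Finset.card_univ, Fintype.card_fin, nsmul_eq_mul]; ring
        _ ≤ ε := hNs M
    linarith
  refine le_of_tendsto hlim ?_
  by_cases hxU : x ∈ U
  · obtain ⟨n0, hn0⟩ := mem_iUnion.1 (hPU hxU)
    rw [indicator_of_mem hxU]
    filter_upwards [Filter.eventually_gt_atTop n0] with M hM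
    refine (hbound M).trans ?_
    rw [hρs]
    have hw : w n0 x = 1 := gw_eq_one8881 g (P n0) (N n0) (hN1 n0) x hn0
    have : ∏ j ∈ Finset.range M, (1 - w j x) = 0 := by
      rw [Finset.prod_eq_zero_iff]
      exact ⟨n0, Finset.mem_range.2 hM, by rw [hw, sub_self]⟩
    rw [this, sub_zero]
  · rw [indicator_of_notMem hxU, sub_zero]
    refine Filter.Eventually.of_forall (fun M => ?_)
    refine (hbound M).trans ?_
    have : 0 ≤ ∑ n ∈ Finset.range M, ρ n x := Finset.sum_nonneg (fun n _ => hρ0 n x)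
    linarith



end Pool.Agent.Y779.RZ
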